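import Pool.Agent.H13.LK.Defs
import Pool.Agent.H32.Dense.EntX

/-!
# Labels at the window `0` from contexts at the window `w`

The box of a context at the window `w`, in the frame `M` with the precisions `c`, is a label at the
window `0` with the same frame and the same precisions. Its cost is at most the entropy of the
context plus the number of digits in the box.
-/

set_option autoImplicit false

namespace Pool.PC

open Finset Real
open Pool.Agent.H49.Ent Pool.Agent.H32.Dense Pool.STK Pool.KA Pool.LK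

variable {m J : ℕ}

/-- The label of a frame and constant precisions. -/
def lblc (F : Fam m J) {b : ℝ} (c : Fin m → ℕ) (M : F.Ω → Fin m → Fin m → ℝ)
    (hc : ∀ i, c i ≤ J) (hM : ∀ ω i j, |M ω i j| ≤ b)
    (hI : ∀ ω, ∃ B : Fin m → Fin m → ℝ, (∀ i j, |B i j| ≤ b) ∧
      ∀ i l, ∑ j, B i j * M ω j l = if i = l then 1 else 0) : Lbl F b where
  k := fun _ => c
  M := M
  le := fun _ => hc
  bd := hM
  inv := hI

/-- **The cost of the box of a context, as a label at the window `0`.** -/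
theorem cost_lblc (F : Fam m J) {b : ℝ} {w : ℕ} (hw : w ≤ J) (c : Fin m → ℕ)
    (M : F.Ω → Fin m → Fin m → ℝ) (hc : ∀ i, c i ≤ J) (hM : ∀ ω i j, |M ω i j| ≤ b)
    (hI : ∀ ω, ∃ B : Fin m → Fin m → ℝ, (∀ i j, |B i j| ≤ b) ∧
      ∀ i l, ∑ j, B i j * M ω j l = if i = l then 1 else 0) :
    (lblc F c M hc hM hI).cost ≤ CH F.p (F.blb w c M) F.Z +
      (∑ i, ((J : ℝ) - c i)) * Real.log 2 + 2 * (m * Real.log (4 * m + 3)) := by
  have hp := F.isLaw
  have h0 := hp.nonneg
  have k1 : CH F.p (lblc F c M hc hM hI).lab F.Z ≤ CH F.p (F.mlb 0 c c M) F.Z := by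
    refine CH_mono_left h0 ?_
    intro ω ω' _ _ h
    obtain ⟨a1, a2, a3, a4, a5⟩ := Box.mlb_ext (Prod.ext_iff.mp h).1
    have e1 : ∀ o : F.Ω, F.x1 0 o = F.u o := by
      intro o
      funext i
      have h1 : F.T1 0 o = 0 := by
        show F.T o / 2 ^ (J - 0) = 0
        rw [Nat.sub_zero]
        exact Nat.div_eq_of_lt (F.tim o)
      show F.u o i + (F.T1 0 o : ℝ) / 2 ^ 0 * F.d o i = F.u o i
      rw [h1]
      simp
    have e2 : ∀ o : F.Ω, F.mps 0 c M o = flk c (mco (M o) (F.u o)) := by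
      intro o
      unfold Fam.mps
      rw [e1]
    rw [e2, e2] at a3
    have a4' : flk c (mco (M ω) (F.d ω)) = flk c (mco (M ω') (F.d ω')) := a4
    show ((c, M ω), (flk c (mco (M ω) (F.u ω)), flk c (mco (M ω) (F.d ω)))) =
      ((c, M ω'), (flk c (mco (M ω') (F.u ω')), flk c (mco (M ω') (F.d ω'))))
    rw [a3, a4', a2]
  have k2 : CH F.p (F.mlb 0 c c M) (F.blb w c M) ≤ 2 * (m * Real.log (4 * m + 3)) := by
    have key := Box.CH_mlb (F := F) (p := F.p) hp (g := w) (g' := 0)
      (k := fun i => c i + w) (c := c) (k' := c) (c' := c) (kk := c) (M := M) (M' := M)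
      (D := 1) hw (Nat.zero_le _) zero_le_one (fun i => Nat.le_add_right _ _)
      (fun i => Nat.le_add_right _ _) (by
        intro ω _
        refine ⟨fun i j => if i = j then 1 else 0, Box.cg_refl _, ?_, ?_⟩
        · intro i j
          by_cases hij : i = j
          · subst hij
            simp
          · simp [hij]
            positivity
        · intro i j
          by_cases hij : i = j
          · subst hij
            simp
          · simp [hij]
            positivity) (F.blb w c M) (by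
        intro ω ω' _ _ h
        obtain ⟨a1, a2, a3, a4, a5⟩ := Box.mlb_ext (show F.mlb w (fun i => c i + w) c M ω =
          F.mlb w (fun i => c i + w) c M ω' from h)
        refine ⟨h, ?_, a2⟩
        show F.T ω / 2 ^ (J - 0) = F.T ω' / 2 ^ (J - 0)
        rw [Nat.sub_zero, Nat.div_eq_of_lt (F.tim ω), Nat.div_eq_of_lt (F.tim ω')])
    rw [mul_one] at key
    exact key
  have k3 : CH F.p (F.mlb 0 c c M) F.Z ≤ CH F.p (F.blb w c M) F.Z +
      CH F.p (F.mlb 0 c c M) (F.blb w c M) := by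
    have d1 := CH_le_add h0 (F.mlb 0 c c M) (F.blb w c M) F.Z
    have d2 : CH F.p (F.mlb 0 c c M) (fun ω => (F.blb w c M ω, F.Z ω)) ≤
        CH F.p (F.mlb 0 c c M) (F.blb w c M) :=
      CH_mono_cond h0 (fun ω ω' _ _ h => (Prod.ext_iff.mp h).1)
    linarith
  have k4 : (∑ ω, F.p ω * ∑ i, ((J : ℝ) - (lblc F c M hc hM hI).k ω i)) =
      ∑ i, ((J : ℝ) - c i) := by
    have e3 : ∀ ω, (lblc F c M hc hM hI).k ω = c := fun _ => rfl
    simp only [e3]
    rw [← Finset.sum_mul, hp.sum_one, one_mul]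
  unfold Lbl.cost
  rw [k4]
  linarith

/-- The information of the line about a context which is closed at the window `w`. -/
theorem blb_closed (F : Fam m J) {w : ℕ} (hw : w ≤ J) (c : Fin m → ℕ)
    (M : F.Ω → Fin m → Fin m → ℝ) (hcl : Det F.p (fun ω => (F.T1 w ω, (F.l ω, F.Z ω))) M) :
    CH F.p (F.blb w c M) (fun ω => (F.l ω, F.Z ω)) = CH F.p (F.T1 w) (fun ω => (F.l ω, F.Z ω)) ∧
      CH F.p (F.T1 w) (fun ω => (F.l ω, F.Z ω)) ≤ w * Real.log 2 := by
  have hp := F.isLaw
  have h0 := hp.nonneg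
  constructor
  · refine CH_congr h0 ?_ ?_ (fun _ _ _ _ h => h) (fun _ _ _ _ h => h)
    · intro ω ω' _ _ h
      exact (Box.mlb_ext (show F.mlb w (fun i => c i + w) c M ω =
          F.mlb w (fun i => c i + w) c M ω' from (Prod.ext_iff.mp h).1)).1
    · intro ω ω' hω hω' h
      have h1 : F.T1 w ω = F.T1 w ω' := (Prod.ext_iff.mp h).1
      have h2 : (F.l ω, F.Z ω) = (F.l ω', F.Z ω') := (Prod.ext_iff.mp h).2
      have h3 : F.l ω = F.l ω' := (Prod.ext_iff.mp h2).1
      have h4 : F.Z ω = F.Z ω' := (Prod.ext_iff.mp h2).2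
      have h5 := hcl ω ω' hω hω' (Prod.ext h1 h2)
      have hu : F.u ω = F.u ω' := (Prod.ext_iff.mp h3).1
      have hd : F.d ω = F.d ω' := (Prod.ext_iff.mp h3).2
      refine Box.mlb_mk h1 h5 ?_ ?_ h4
      · unfold Fam.mps
        have e1 : F.x1 w ω = F.x1 w ω' := by
          funext i
          show F.u ω i + (F.T1 w ω : ℝ) / 2 ^ w * F.d ω i =
            F.u ω' i + (F.T1 w ω' : ℝ) / 2 ^ w * F.d ω' i
          rw [hu, hd, h1]
        rw [e1, h5]
      · unfold Fam.mvl
        rw [hd, h5]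
  · have h1 := CH_le_card h0 hp.sum_one (F.T1 w) (fun ω => (F.l ω, F.Z ω))
      (fun _ => range (2 ^ w)) (fun ω _ => by
        rw [Finset.mem_range]
        show F.T ω / 2 ^ (J - w) < 2 ^ w
        rw [Nat.div_lt_iff_lt_mul (by positivity), ← pow_add, Nat.add_sub_cancel' hw]
        exact F.tim ω)
    refine h1.trans (le_of_eq ?_)
    rw [Ex_const hp.sum_one, Finset.card_range]
    push_cast
    rw [Real.log_pow]

/-- **The end at the window `w`.** The cost of the best label is at most the information of the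
line about the context, plus the number of digits in the box at the window `0`, plus `w`. -/
theorem ends_cost (F : Fam m J) {b : ℝ} {w : ℕ} (hw : w ≤ J) (c : Fin m → ℕ)
    (M : F.Ω → Fin m → Fin m → ℝ) (hc : ∀ i, c i ≤ J) (hM : ∀ ω i j, |M ω i j| ≤ b)
    (hI : ∀ ω, ∃ B : Fin m → Fin m → ℝ, (∀ i j, |B i j| ≤ b) ∧
      ∀ i l, ∑ j, B i j * M ω j l = if i = l then 1 else 0)
    (hcl : Det F.p (fun ω => (F.T1 w ω, (F.l ω, F.Z ω))) M) :
    ∃ B : Lbl F b, B.cost ≤
      (CH F.p (F.blb w c M) F.Z - CH F.p (F.blb w c M) (fun ω => (F.l ω, F.Z ω))) +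
      w * Real.log 2 + (∑ i, ((J : ℝ) - c i)) * Real.log 2 + 2 * (m * Real.log (4 * m + 3)) := by
  obtain ⟨h1, h2⟩ := blb_closed F hw c M hcl
  refine ⟨lblc F c M hc hM hI, (cost_lblc F hw c M hc hM hI).trans ?_⟩
  rw [h1]
  linarith

/-! ### Contexts of planks: one coordinate along the frame -/

/-- The frame matrix: the coordinate `i0`, and the others minus `z` times the coordinate `i0`. -/
def zfr (i0 : Fin m) (z : Fin m → ℝ) (i j : Fin m) : ℝ :=
  if i = i0 then (if j = i0 then 1 else 0) else (if j = i then 1 else if j = i0 then -z i else 0)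

/-- The precisions of a plank. -/
def qcv (q lam : ℕ) (i0 i : Fin m) : ℕ := if i = i0 then q else q + lam

theorem zfr_i0 (i0 : Fin m) (z x : Fin m → ℝ) : mco (zfr i0 z) x i0 = x i0 := by
  unfold mco zfr
  simp

theorem zfr_ne {i0 i : Fin m} (hi : i ≠ i0) (z x : Fin m → ℝ) :
    mco (zfr i0 z) x i = x i - z i * x i0 := by
  unfold mco zfr
  simp only [if_neg hi]
  have h1 : ∀ j : Fin m, (if j = i then (1 : ℝ) else if j = i0 then -z i else 0) * x j =
      (if j = i then x j else 0) + (if j = i0 then -z i * x j else 0) := by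
    intro j
    by_cases h2 : j = i
    · have h3 : j ≠ i0 := fun h => hi (h2.symm.trans h)
      simp [h2, hi]
    · simp [h2]
  rw [Finset.sum_congr rfl fun j _ => h1 j, Finset.sum_add_distrib]
  simp
  ring

theorem flk_zfr (a lam : ℕ) (i0 : Fin m) (z x : Fin m → ℝ) (i : Fin m) :
    flk (fun i => if i = i0 then a else a + lam) (mco (zfr i0 z) x) i =
      fl a (pco lam i0 z x) i := by
  show ⌊(2 : ℝ) ^ (if i = i0 then a else a + lam) * mco (zfr i0 z) x i⌋ =
    ⌊(2 : ℝ) ^ a * pco lam i0 z x i⌋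
  unfold pco
  by_cases hi : i = i0
  · subst hi
    rw [if_pos rfl, if_pos rfl, zfr_i0]
  · rw [if_neg hi, if_neg hi, zfr_ne hi, pow_add, mul_assoc]

theorem zfr_bd {i0 : Fin m} {z : Fin m → ℝ} (hz : ∀ i, |z i| ≤ 1) (i j : Fin m) :
    |zfr i0 z i j| ≤ 1 := by
  unfold zfr
  split_ifs <;> simp [hz]

theorem zfr_inv (i0 : Fin m) (z : Fin m → ℝ) (i l : Fin m) :
    ∑ j, zfr i0 (fun i => -z i) i j * zfr i0 z j l = if i = l then 1 else 0 := by
  have h1 : ∀ j, zfr i0 z j l = mco (zfr i0 z) (fun k => if k = l then 1 else 0) j := by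
    intro j
    unfold mco
    simp
  rw [Finset.sum_congr rfl fun j _ => by rw [h1]]
  have h2 : ∀ y : Fin m → ℝ, ∑ j, zfr i0 (fun i => -z i) i j * y j =
      mco (zfr i0 (fun i => -z i)) y i := fun _ => rfl
  rw [h2]
  by_cases hi : i = i0
  · subst hi
    rw [zfr_i0, zfr_i0]
  · rw [zfr_ne hi, zfr_ne hi, zfr_i0]
    ring

/-- The plank as a box. -/
theorem blb_qlb (F : Fam m J) (w q lam : ℕ) (i0 : Fin m) (z : F.Ω → Fin m → ℝ) :
    Det F.p (F.qlb w q lam i0 z) (F.blb w (qcv q lam i0) (fun ω => zfr i0 (z ω))) ∧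
      ∀ ω ω', F.qlb w q lam i0 z ω = F.qlb w q lam i0 z ω' →
        F.blb w (qcv q lam i0) (fun ω => zfr i0 (z ω)) ω =
          F.blb w (qcv q lam i0) (fun ω => zfr i0 (z ω)) ω' := by
  have key : ∀ ω ω', F.qlb w q lam i0 z ω = F.qlb w q lam i0 z ω' →
        F.blb w (qcv q lam i0) (fun ω => zfr i0 (z ω)) ω =
          F.blb w (qcv q lam i0) (fun ω => zfr i0 (z ω)) ω' := by
    intro ω ω' h
    obtain ⟨a1, a2, a3, a4, a5⟩ := Lab.glb_ext (show F.glb w (q + w) q lam i0 z ω =
      F.glb w (q + w) q lam i0 z ω' from h)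
    refine Box.mlb_mk a1 (by rw [a2]) ?_ ?_ a5
    · funext i
      have e1 : ∀ o : F.Ω, F.mps w (fun i => qcv q lam i0 i + w)
          (fun ω => zfr i0 (z ω)) o i = F.gps w (q + w) lam i0 z o i := by
        intro o
        have h1 := flk_zfr (q + w) lam i0 (z o) (F.x1 w o) i
        have h2 : (fun i : Fin m => if i = i0 then q + w else q + w + lam) =
            fun i => qcv q lam i0 i + w := by
          funext i
          unfold qcv
          split_ifs
          · rfl
          · ring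
        rw [h2] at h1
        exact h1
      rw [e1, e1, a3]
    · funext i
      have e1 : ∀ o : F.Ω, F.mvl (qcv q lam i0) (fun ω => zfr i0 (z ω)) o i =
          F.gvl q lam i0 z o i := fun o => flk_zfr q lam i0 (z o) (F.d o) i
      rw [e1, e1, a4]
  exact ⟨fun ω ω' _ _ h => key ω ω' h, key⟩

/-- **The end at the window `w`, for a plank** `(q, lam)` with the frame `z`, `|z| ≤ 1`, closed at
the window `w`. -/
theorem ends_qlb (F : Fam m J) {b : ℝ} (hb : 1 ≤ b) {w : ℕ} (hw : w ≤ J) {q lam : ℕ}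
    (hq : q + lam ≤ J) (i0 : Fin m) (z : F.Ω → Fin m → ℝ) (hz : ∀ ω i, |z ω i| ≤ 1)
    (hcl : Det F.p (fun ω => (F.T1 w ω, (F.l ω, F.Z ω))) z) :
    ∃ B : Lbl F b, B.cost ≤
      (CH F.p (F.qlb w q lam i0 z) F.Z - CH F.p (F.qlb w q lam i0 z) (fun ω => (F.l ω, F.Z ω))) +
      w * Real.log 2 + (m * ((J : ℝ) - q) - (m - 1) * lam) * Real.log 2 +
      2 * (m * Real.log (4 * m + 3)) := by
  have h0 := F.isLaw.nonneg
  obtain ⟨B, hB⟩ := ends_cost F (b := b) hw (qcv q lam i0) (fun ω => zfr i0 (z ω))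
    (fun i => by unfold qcv; split_ifs <;> omega)
    (fun ω i j => (zfr_bd (hz ω) i j).trans hb)
    (fun ω => ⟨zfr i0 (fun i => -z ω i), fun i j => (zfr_bd (fun i => by
      rw [abs_neg]
      exact hz ω i) i j).trans hb, zfr_inv i0 (z ω)⟩)
    (fun ω ω' hω hω' h => by
      have := hcl ω ω' hω hω' h
      show zfr i0 (z ω) = zfr i0 (z ω')
      rw [this])
  refine ⟨B, hB.trans ?_⟩
  have k1 : CH F.p (F.blb w (qcv q lam i0) (fun ω => zfr i0 (z ω))) F.Z ≤
      CH F.p (F.qlb w q lam i0 z) F.Z :=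
    CH_mono_left h0 fun ω ω' hω hω' h => (blb_qlb F w q lam i0 z).1 ω ω' hω hω'
      (Prod.ext_iff.mp h).1
  have k2 : CH F.p (F.qlb w q lam i0 z) (fun ω => (F.l ω, F.Z ω)) =
      CH F.p (F.blb w (qcv q lam i0) (fun ω => zfr i0 (z ω))) (fun ω => (F.l ω, F.Z ω)) := by
    have h1 := (blb_closed F hw (qcv q lam i0) (fun ω => zfr i0 (z ω))
      (fun ω ω' hω hω' h => by
        have := hcl ω ω' hω hω' h
        show zfr i0 (z ω) = zfr i0 (z ω')
        rw [this])).1
    rw [h1]
    refine CH_congr h0 ?_ ?_ (fun _ _ _ _ h => h) (fun _ _ _ _ h => h)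
    · intro ω ω' _ _ h
      exact (Lab.glb_ext (show F.glb w (q + w) q lam i0 z ω =
        F.glb w (q + w) q lam i0 z ω' from (Prod.ext_iff.mp h).1)).1
    · intro ω ω' hω hω' h
      have h1 : F.T1 w ω = F.T1 w ω' := (Prod.ext_iff.mp h).1
      have h2 : (F.l ω, F.Z ω) = (F.l ω', F.Z ω') := (Prod.ext_iff.mp h).2
      exact (Lab.glb_det F (Prod.ext_iff.mp h2).1 h1 (hcl ω ω' hω hω' (Prod.ext h1 h2))
        (Prod.ext_iff.mp h2).2).1
  have k3 : ∑ i, ((J : ℝ) - qcv q lam i0 i) = m * ((J : ℝ) - q) - (m - 1) * lam := by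
    have h1 : ∀ i : Fin m, ((J : ℝ) - qcv q lam i0 i) =
        ((J : ℝ) - q - lam) + (if i = i0 then (lam : ℝ) else 0) := by
      intro i
      unfold qcv
      split_ifs
      · ring
      · push_cast
        ring
    rw [Finset.sum_congr rfl fun i _ => h1 i, Finset.sum_add_distrib]
    simp
    ring
  rw [k2, ← k3]
  linarith

end Pool.PC
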