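import Pool.Agent.H70.PC.Nest

/-!
# Plan C: the truncated contexts

`F.ctt w q l i0 z` is the context `F.ctz w q l i0 z`, with at most `J` digits of the positions. It
is a function of the exact point and of the cell of the velocity, without restrictions.
-/

set_option autoImplicit false

namespace Pool.KA

/-- The context `(w, q, l)` with the frame `z`, positions to at most `J` digits. -/
noncomputable def Fam.ctt {m J : ℕ} (F : Fam m J) (w q l : ℕ) (i0 : Fin m)
    (z : F.Ω → Fin m → ℝ) :=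
  F.mlb w (fun i => min (Pool.PC.qcv q l i0 i + w) J) (Pool.PC.qcv q l i0)
    (fun ω => Pool.PC.zfr i0 (z ω))

end Pool.KA

namespace Pool.PC

open Finset Real
open Pool.Agent.H49.Ent Pool.Agent.H32.Dense Pool.STK Pool.KA Pool.LK Pool.KSAT

variable {m J : ℕ} {F : Fam m J} {p : F.Ω → ℝ} {w q l w' q' l' : ℕ} {i0 : Fin m}
  {z z' : F.Ω → Fin m → ℝ} {D : ℝ}

theorem ctt_ext {ω ω' : F.Ω} (h : F.ctt w q l i0 z ω = F.ctt w q l i0 z ω') :
    F.T1 w ω = F.T1 w ω' ∧ zfr i0 (z ω) = zfr i0 (z ω') ∧ F.Z ω = F.Z ω' := by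
  obtain ⟨a1, a2, a3, a4, a5⟩ := Box.mlb_ext (show F.mlb w (fun i => min (qcv q l i0 i + w) J)
    (qcv q l i0) (fun ω => zfr i0 (z ω)) ω = F.mlb w (fun i => min (qcv q l i0 i + w) J)
    (qcv q l i0) (fun ω => zfr i0 (z ω)) ω' from h)
  exact ⟨a1, a2, a5⟩

/-- Without truncation it is the context `ctz`. -/
theorem ctt_eq (h : q + l + w ≤ J) : F.ctt w q l i0 z = F.ctz w q l i0 z := by
  have e : (fun i => min (qcv q l i0 i + w) J) = fun i => qcv q l i0 i + w := by
    funext i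
    refine min_eq_left ?_
    unfold qcv
    split_ifs <;> omega
  unfold Fam.ctt
  rw [e]
  rfl

/-- Shared digits of floors. -/
theorem floor_down {a b : ℕ} (hab : a ≤ b) {x y : ℝ} (h : ⌊(2 : ℝ) ^ b * x⌋ = ⌊(2 : ℝ) ^ b * y⌋) :
    ⌊(2 : ℝ) ^ a * x⌋ = ⌊(2 : ℝ) ^ a * y⌋ := by
  obtain ⟨j, rfl⟩ := Nat.exists_eq_add_of_le hab
  have e : ∀ t : ℝ, ⌊(2 : ℝ) ^ a * t⌋ = ⌊(2 : ℝ) ^ (a + j) * t⌋ / ((2 ^ j : ℕ) : ℤ) := by
    intro t
    rw [← Int.floor_div_natCast]
    congr 1
    push_cast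
    rw [pow_add]
    field_simp
  rw [e, e, h]

/-- The truncated context is a function of the context. -/
theorem ctt_of_ctz (ω ω' : F.Ω) (h : F.ctz w q l i0 z ω = F.ctz w q l i0 z ω') :
    F.ctt w q l i0 z ω = F.ctt w q l i0 z ω' := by
  obtain ⟨a1, a2, a3, a4, a5⟩ := Box.mlb_ext (show F.mlb w (fun i => qcv q l i0 i + w)
    (qcv q l i0) (fun ω => zfr i0 (z ω)) ω = F.mlb w (fun i => qcv q l i0 i + w)
    (qcv q l i0) (fun ω => zfr i0 (z ω)) ω' from h)
  refine Box.mlb_mk (M := fun ω => zfr i0 (z ω)) a1 a2 ?_ a4 a5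
  funext i
  exact floor_down (min_le_left _ _) (congrFun a3 i :
    ⌊(2 : ℝ) ^ (qcv q l i0 i + w) * mco (zfr i0 (z ω)) (F.x1 w ω) i⌋ =
      ⌊(2 : ℝ) ^ (qcv q l i0 i + w) * mco (zfr i0 (z ω')) (F.x1 w ω') i⌋)

/-- **Change of the context.** -/
theorem CH_ctt {S : Type} (hp : IsLaw p) (hw : w ≤ J) (hw' : w' ≤ J) (hD : 1 ≤ D)
    (h1 : q' + w' ≤ q + min w w') (h2 : q' + l' + w' ≤ q + l + min w w') (h3 : q' ≤ q)
    (h4 : q' + l' ≤ q + l)
    (hz : ∀ ω, 0 < p ω → ∀ i, i ≠ i0 →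
      |z ω i - z' ω i| ≤ D * 2 ^ min (q + min w w') J / 2 ^ min (q' + l' + w') J ∧
      |z ω i - z' ω i| ≤ D * 2 ^ q / 2 ^ (q' + l'))
    (W : F.Ω → S) (hW : ∀ ω ω', 0 < p ω → 0 < p ω' → W ω = W ω' →
      F.ctt w q l i0 z ω = F.ctt w q l i0 z ω' ∧ F.T1 w' ω = F.T1 w' ω' ∧
        ∀ i, i ≠ i0 → z' ω i = z' ω' i) :
    CH p (F.ctt w' q' l' i0 z') W ≤ 2 * (m * Real.log (4 * m * D + 3)) := by
  refine Box.CH_mlb (F := F) hp (g := w) (g' := w')
    (k := fun i => min (qcv q l i0 i + w) J)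
    (c := qcv q l i0) (k' := fun i => min (qcv q' l' i0 i + w') J) (c' := qcv q' l' i0)
    (kk := fun i => min (qcv q l i0 i + min w w') J) (M := fun ω => zfr i0 (z ω))
    (M' := fun ω => zfr i0 (z' ω)) hw hw' (by linarith)
    (fun i => min_le_min_right J (Nat.add_le_add_left (min_le_left _ _) _))
    (fun i => min_le_left _ _) ?_ W ?_
  · intro ω hω
    refine ⟨zch i0 (z ω) (z' ω), cg_zfr i0 (z ω) (z' ω), ?_, ?_⟩
    · intro i j
      show |zch i0 (z ω) (z' ω) i j| ≤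
        D * 2 ^ min (qcv q l i0 j + min w w') J / 2 ^ min (qcv q' l' i0 i + w') J
      unfold zch qcv
      by_cases hi : i = i0
      · rw [if_pos hi, if_pos hi]
        by_cases hj : j = i0
        · rw [if_pos hj, if_pos hj, abs_one]
          exact one_le_pw hD (min_le_min_right J h1)
        · rw [if_neg hj, abs_zero]
          positivity
      · rw [if_neg hi, if_neg hi]
        by_cases hj : j = i
        · have hj' : j ≠ i0 := fun h => hi (hj.symm.trans h)
          rw [if_pos hj, if_neg hj', abs_one]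
          exact one_le_pw hD (min_le_min_right J h2)
        · rw [if_neg hj]
          by_cases hj' : j = i0
          · rw [if_pos hj', if_pos hj']
            exact (hz ω hω i hi).1
          · rw [if_neg hj', abs_zero]
            positivity
    · intro i j
      show |zch i0 (z ω) (z' ω) i j| ≤ D * 2 ^ (qcv q l i0 j) / 2 ^ (qcv q' l' i0 i)
      unfold zch qcv
      by_cases hi : i = i0
      · rw [if_pos hi, if_pos hi]
        by_cases hj : j = i0
        · rw [if_pos hj, if_pos hj, abs_one]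
          exact one_le_pw hD h3
        · rw [if_neg hj, abs_zero]
          positivity
      · rw [if_neg hi, if_neg hi]
        by_cases hj : j = i
        · have hj' : j ≠ i0 := fun h => hi (hj.symm.trans h)
          rw [if_pos hj, if_neg hj', abs_one]
          exact one_le_pw hD h4
        · rw [if_neg hj]
          by_cases hj' : j = i0
          · rw [if_pos hj', if_pos hj']
            exact (hz ω hω i hi).2
          · rw [if_neg hj', abs_zero]
            positivity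
  · intro ω ω' hω hω' h
    obtain ⟨b1, b2, b3⟩ := hW ω ω' hω hω' h
    exact ⟨b1, b2, zfr_mk b3⟩

/-- **Nestedness.** Longer windows, fewer digits. -/
theorem ctt_coarse (hp : IsLaw p) (hw : w ≤ J) (hD : 1 ≤ D) (hww : w' ≤ w) (hqq : q' ≤ q)
    (hll : l' ≤ l) (hgr : ∀ ω i, ∃ a : ℤ, z' ω i = a / 2 ^ l')
    (hz : ∀ ω, 0 < p ω → ∀ i, i ≠ i0 → |z ω i - z' ω i| ≤ D / 2 ^ l') :
    CH p (F.ctt w' q' l' i0 z') (F.ctt w q l i0 z) ≤
      m * Real.log (4 * D + 3) + 2 * (m * Real.log (4 * m * D + 3)) := by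
  have hD0 : 0 ≤ D := by linarith
  have k1 := CH_frame (F := F) (p := p) (i0 := i0) hp hD0 hgr hz (F.ctt w q l i0 z)
    (fun ω ω' _ _ h i hi => zfr_eq (ctt_ext h).2.1 hi)
  have k2 := CH_ctt (F := F) (p := p) (i0 := i0) (z := z) (z' := z') hp hw (hww.trans hw) hD
    (q := q) (q' := q') (l := l) (l' := l') (w := w) (w' := w')
    (by rw [min_eq_right hww]; omega) (by rw [min_eq_right hww]; omega) hqq (by omega)
    (fun ω hω i hi => ⟨(hz ω hω i hi).trans (pw_shift (by
        rw [min_eq_right hww]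
        omega) hD0), (hz ω hω i hi).trans (pw_shift (by omega) hD0)⟩)
    (fun ω => (zfr i0 (z' ω), F.ctt w q l i0 z ω)) (fun ω ω' _ _ h => by
      have h1 := (Prod.ext_iff.mp h).1
      have h2 : F.ctt w q l i0 z ω = F.ctt w q l i0 z ω' := (Prod.ext_iff.mp h).2
      refine ⟨h2, ?_, fun i hi => zfr_eq h1 hi⟩
      obtain ⟨K, rfl⟩ := Nat.exists_eq_add_of_le hww
      rw [Pool.KSAT.T1_div F hw ω, Pool.KSAT.T1_div F hw ω', (ctt_ext h2).1])
  have k3 := CH_le_add hp.nonneg (F.ctt w' q' l' i0 z') (fun ω => zfr i0 (z' ω))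
    (F.ctt w q l i0 z)
  linarith

/-- **The rows.** Shorter windows and fewer digits of the velocity, the same digits of the
position; the window `T1 w'` and the new frame are given. -/
theorem ctt_rows {S : Type} (hp : IsLaw p) (hw' : w' ≤ J) (hD : 1 ≤ D) (hww : w ≤ w')
    (h1 : q' + w' ≤ q + w) (h2 : q' + l' + w' ≤ q + l + w)
    (hz : ∀ ω, 0 < p ω → ∀ i, i ≠ i0 → |z ω i - z' ω i| ≤ D / 2 ^ l)
    (W : F.Ω → S) (hW : ∀ ω ω', 0 < p ω → 0 < p ω' → W ω = W ω' →
      F.ctt w q l i0 z ω = F.ctt w q l i0 z ω' ∧ F.T1 w' ω = F.T1 w' ω' ∧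
        ∀ i, i ≠ i0 → z' ω i = z' ω' i) :
    CH p (F.ctt w' q' l' i0 z') W ≤ 2 * (m * Real.log (4 * m * D + 3)) := by
  have hD0 : 0 ≤ D := by linarith
  refine CH_ctt hp (hww.trans hw') hw' hD (q := q) (q' := q') (l := l) (l' := l')
    (by rw [min_eq_left hww]; omega) (by rw [min_eq_left hww]; omega) (by omega) (by omega)
    (fun ω hω i hi => ⟨(hz ω hω i hi).trans (pw_shift (by
        rw [min_eq_left hww]
        omega) hD0), (hz ω hω i hi).trans (pw_shift (by omega) hD0)⟩) W hW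

/-- **From the exact point**, without restriction on the precisions. -/
theorem ctt_pt {S : Type} (hp : IsLaw p) (hw : w ≤ J) {B : ℝ} (hB : 1 ≤ B) (hD : 1 ≤ D) {n : ℕ}
    {e : F.Ω → Fin m → ℝ} (h1 : q' ≤ q) (h2 : q' + l' ≤ n)
    (he : ∀ ω, 0 < p ω → ∀ i, |e ω i| ≤ B)
    (hz : ∀ ω, 0 < p ω → ∀ i, i ≠ i0 → |e ω i - z ω i| ≤ D / 2 ^ l')
    (W : F.Ω → S) (hW : ∀ ω ω', 0 < p ω → 0 < p ω' → W ω = W ω' →
      F.X J ω = F.X J ω' ∧ F.W ω = F.W ω' ∧ (∀ i, i ≠ i0 → e ω i = e ω' i ∧ z ω i = z ω' i) ∧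
      |F.d ω i0 - F.d ω' i0| ≤ B / 2 ^ q ∧
      ∀ i, i ≠ i0 → |(F.d ω i - e ω i * F.d ω i0) - (F.d ω' i - e ω i * F.d ω' i0)| ≤
        B / 2 ^ n) :
    CH p (F.ctt w q' l' i0 z) W ≤
      2 * (m * Real.log (2 * (m * D * (2 * (m * B + B))) + 3)) := by
  have hD0 : 0 ≤ D := by linarith
  have hB0 : 0 ≤ B := by linarith
  refine Box.CH_mlb_of_pt (F := F) (p := p) hp (g := w) hw
    (k := fun i => min (qcv q' l' i0 i + w) J) (c := qcv q' l' i0)
    (h := fun i => if i = i0 then q else n)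
    (r := fun i => min (if i = i0 then q' + w else q' + l' + w) J)
    (N := fun ω => zfr i0 (e ω)) (M := fun ω => zfr i0 (z ω)) (B := B) (D := D) hB0 hD0
    ?_ (fun i => min_le_right _ _) ?_ ?_ W ?_
  · intro ω hω i j
    show |zfr i0 (e ω) i j| ≤ B
    unfold zfr
    split_ifs
    · rwa [abs_one]
    · rwa [abs_zero]
    · rwa [abs_one]
    · rw [abs_neg]
      exact he ω hω i
    · rwa [abs_zero]
  · intro i
    show min (if i = i0 then q' + w else q' + l' + w) J ≤ (if i = i0 then q else n) + w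
    split_ifs <;> omega
  · intro ω hω
    refine ⟨zch i0 (e ω) (z ω), cg_zfr i0 (e ω) (z ω), ?_, ?_⟩
    · intro i j
      show |zch i0 (e ω) (z ω) i j| ≤
        D * 2 ^ min (if j = i0 then q' + w else q' + l' + w) J /
          2 ^ min (qcv q' l' i0 i + w) J
      unfold zch qcv
      by_cases hi : i = i0
      · rw [if_pos hi, if_pos hi]
        by_cases hj : j = i0
        · rw [if_pos hj, if_pos hj, abs_one]
          exact one_le_pw hD le_rfl
        · rw [if_neg hj, abs_zero]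
          positivity
      · rw [if_neg hi, if_neg hi]
        by_cases hj : j = i
        · have hj' : j ≠ i0 := fun h => hi (hj.symm.trans h)
          rw [if_pos hj, if_neg hj', abs_one]
          exact one_le_pw hD le_rfl
        · rw [if_neg hj]
          by_cases hj' : j = i0
          · rw [if_pos hj', if_pos hj']
            exact (hz ω hω i hi).trans (pw_shift (by omega) hD0)
          · rw [if_neg hj', abs_zero]
            positivity
    · intro i j
      show |zch i0 (e ω) (z ω) i j| ≤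
        D * 2 ^ (if j = i0 then q else n) / 2 ^ (qcv q' l' i0 i)
      unfold zch qcv
      by_cases hi : i = i0
      · rw [if_pos hi, if_pos hi]
        by_cases hj : j = i0
        · rw [if_pos hj, if_pos hj, abs_one]
          exact one_le_pw hD h1
        · rw [if_neg hj, abs_zero]
          positivity
      · rw [if_neg hi, if_neg hi]
        by_cases hj : j = i
        · have hj' : j ≠ i0 := fun h => hi (hj.symm.trans h)
          rw [if_pos hj, if_neg hj', abs_one]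
          exact one_le_pw hD h2
        · rw [if_neg hj]
          by_cases hj' : j = i0
          · rw [if_pos hj', if_pos hj']
            exact (hz ω hω i hi).trans (pw_shift (by omega) hD0)
          · rw [if_neg hj', abs_zero]
            positivity
  · intro ω ω' hω hω' h
    obtain ⟨b1, b2, b3, b4, b5⟩ := hW ω ω' hω hω' h
    refine ⟨b1, b2, zfr_mk fun i hi => (b3 i hi).1, zfr_mk fun i hi => (b3 i hi).2, ?_⟩
    intro i
    show |mco (zfr i0 (e ω)) (F.d ω) i - mco (zfr i0 (e ω)) (F.d ω') i| ≤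
      B / 2 ^ (if i = i0 then q else n)
    by_cases hi : i = i0
    · rw [if_pos hi, hi, zfr_i0, zfr_i0]
      exact b4
    · rw [if_neg hi, zfr_ne hi, zfr_ne hi]
      exact b5 i hi

/-- **Closed contexts.** -/
theorem ctt_det (hcl : Det p (slam F w) z) : Det p (slam F w) (F.ctt w q l i0 z) :=
  fun ω ω' hω hω' h => ctt_of_ctz ω ω' (ctz_det hcl ω ω' hω hω' h)

/-- The window is a function of the context. -/
theorem ctt_T1 (hww : w' ≤ w) (hw : w ≤ J) : Det p (F.ctt w q l i0 z) (F.T1 w') := by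
  intro ω ω' _ _ h
  obtain ⟨K, rfl⟩ := Nat.exists_eq_add_of_le hww
  rw [Pool.KSAT.T1_div F hw ω, Pool.KSAT.T1_div F hw ω', (ctt_ext h).1]

/-- The side information is a function of the context. -/
theorem ctt_Z : Det p (F.ctt w q l i0 z) F.Z := fun _ _ _ _ h => (ctt_ext h).2.2

/-- **Nested in the velocity scale, exactly.** -/
theorem ctt_mono {r : ℕ} (hr : r ≤ q) : Det p (F.ctt w q l i0 z) (F.ctt w r l i0 z) := by
  intro ω ω' _ _ h
  obtain ⟨a1, a2, a3, a4, a5⟩ := Box.mlb_ext (show F.mlb w (fun i => min (qcv q l i0 i + w) J)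
    (qcv q l i0) (fun ω => zfr i0 (z ω)) ω = F.mlb w (fun i => min (qcv q l i0 i + w) J)
    (qcv q l i0) (fun ω => zfr i0 (z ω)) ω' from h)
  have e2 : ∀ i, qcv r l i0 i ≤ qcv q l i0 i := by
    intro i
    unfold qcv
    split_ifs <;> omega
  refine Box.mlb_mk (M := fun ω => zfr i0 (z ω)) a1 a2 ?_ ?_ a5
  · funext i
    exact floor_down (min_le_min_right J (Nat.add_le_add_right (e2 i) w)) (congrFun a3 i :
      ⌊(2 : ℝ) ^ min (qcv q l i0 i + w) J * mco (zfr i0 (z ω)) (F.x1 w ω) i⌋ =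
        ⌊(2 : ℝ) ^ min (qcv q l i0 i + w) J * mco (zfr i0 (z ω')) (F.x1 w ω') i⌋)
  · funext i
    exact floor_down (e2 i) (congrFun a4 i :
      ⌊(2 : ℝ) ^ (qcv q l i0 i) * mco (zfr i0 (z ω)) (F.d ω) i⌋ =
        ⌊(2 : ℝ) ^ (qcv q l i0 i) * mco (zfr i0 (z ω')) (F.d ω') i⌋)

/-- **The end at the window `w`, for a truncated context** `(q, l)` with the frame `z`,
`|z| ≤ 1`. -/
theorem ends_ctt (F : Fam m J) {b : ℝ} (hb : 1 ≤ b) {w : ℕ} (hw : w ≤ J) {q l : ℕ}
    (hq : q + l ≤ J) (i0 : Fin m) (z : F.Ω → Fin m → ℝ) (hz : ∀ ω i, |z ω i| ≤ 1) :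
    ∃ B : Lbl F b, B.cost ≤
      (CH F.p (F.ctt w q l i0 z) F.Z - CH F.p (F.T1 w) (fun ω => (F.l ω, F.Z ω))) +
      w * Real.log 2 + (m * ((J : ℝ) - q) - (m - 1) * l) * Real.log 2 +
      2 * (m * Real.log (4 * m + 3)) := by
  have hp := F.isLaw
  have h0 := hp.nonneg
  have hI : ∀ ω, ∃ B : Fin m → Fin m → ℝ, (∀ i j, |B i j| ≤ b) ∧
      ∀ i l, ∑ j, B i j * zfr i0 (z ω) j l = if i = l then 1 else 0 := fun ω =>
    ⟨zfr i0 (fun i => -z ω i), fun i j => (zfr_bd (fun i => by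
      rw [abs_neg]
      exact hz ω i) i j).trans hb, zfr_inv i0 (z ω)⟩
  have hM : ∀ ω i j, |zfr i0 (z ω) i j| ≤ b := fun ω i j => (zfr_bd (hz ω) i j).trans hb
  have hc : ∀ i, qcv q l i0 i ≤ J := fun i => by unfold qcv; split_ifs <;> omega
  refine ⟨lblc F (qcv q l i0) (fun ω => zfr i0 (z ω)) hc hM hI, ?_⟩
  have k1 : CH F.p (lblc F (qcv q l i0) (fun ω => zfr i0 (z ω)) hc hM hI).lab F.Z ≤
      CH F.p (F.mlb 0 (qcv q l i0) (qcv q l i0) (fun ω => zfr i0 (z ω))) F.Z := by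
    refine CH_mono_left h0 ?_
    intro ω ω' _ _ h
    have h9 : F.mlb 0 (qcv q l i0) (qcv q l i0) (fun ω => zfr i0 (z ω)) ω =
      F.mlb 0 (qcv q l i0) (qcv q l i0) (fun ω => zfr i0 (z ω)) ω' := (Prod.ext_iff.mp h).1
    obtain ⟨a1, a2, a3, a4, a5⟩ := Box.mlb_ext h9
    have e1 : ∀ o : F.Ω, F.x1 0 o = F.u o := by
      intro o
      funext i
      have h1 : F.T1 0 o = 0 := by
        show F.T o / 2 ^ (J - 0) = 0
        rw [Nat.sub_zero]
        exact Nat.div_eq_of_lt (F.tim o)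
      show F.u o i + (F.T1 0 o : ℝ) / 2 ^ 0 * F.d o i = F.u o i
      rw [h1]
      simp
    have a3' : flk (qcv q l i0) (mco (zfr i0 (z ω)) (F.u ω)) =
        flk (qcv q l i0) (mco (zfr i0 (z ω')) (F.u ω')) := by
      have h2 : flk (qcv q l i0) (mco (zfr i0 (z ω)) (F.x1 0 ω)) =
        flk (qcv q l i0) (mco (zfr i0 (z ω')) (F.x1 0 ω')) := a3
      rwa [e1, e1] at h2
    have a4' : flk (qcv q l i0) (mco (zfr i0 (z ω)) (F.d ω)) =
        flk (qcv q l i0) (mco (zfr i0 (z ω')) (F.d ω')) := a4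
    show ((qcv q l i0, zfr i0 (z ω)), (flk (qcv q l i0) (mco (zfr i0 (z ω)) (F.u ω)),
      flk (qcv q l i0) (mco (zfr i0 (z ω)) (F.d ω)))) =
      ((qcv q l i0, zfr i0 (z ω')), (flk (qcv q l i0) (mco (zfr i0 (z ω')) (F.u ω')),
        flk (qcv q l i0) (mco (zfr i0 (z ω')) (F.d ω'))))
    rw [a3', a4', a2]
  have k2 : CH F.p (F.mlb 0 (qcv q l i0) (qcv q l i0) (fun ω => zfr i0 (z ω)))
      (F.ctt w q l i0 z) ≤ 2 * (m * Real.log (4 * m + 3)) := by
    have key := Box.CH_mlb (F := F) (p := F.p) hp (g := w) (g' := 0)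
      (k := fun i => min (qcv q l i0 i + w) J) (c := qcv q l i0) (k' := qcv q l i0)
      (c' := qcv q l i0) (kk := qcv q l i0) (M := fun ω => zfr i0 (z ω))
      (M' := fun ω => zfr i0 (z ω)) (D := 1) hw (Nat.zero_le _) zero_le_one
      (fun i => le_min (Nat.le_add_right _ _) (hc i)) (fun i => Nat.le_add_right _ _) (by
        intro ω _
        refine ⟨fun i j => if i = j then 1 else 0, Box.cg_refl _, ?_, ?_⟩
        · intro i j
          by_cases hij : i = j
          · subst hij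
            simp
          · simp [hij]
            positivity
        · intro i j
          by_cases hij : i = j
          · subst hij
            simp
          · simp [hij]
            positivity) (F.ctt w q l i0 z) (by
        intro ω ω' _ _ h
        refine ⟨h, ?_, (ctt_ext h).2.1⟩
        show F.T ω / 2 ^ (J - 0) = F.T ω' / 2 ^ (J - 0)
        rw [Nat.sub_zero, Nat.div_eq_of_lt (F.tim ω), Nat.div_eq_of_lt (F.tim ω')])
    rw [mul_one] at key
    exact key
  have k3 : CH F.p (F.mlb 0 (qcv q l i0) (qcv q l i0) (fun ω => zfr i0 (z ω))) F.Z ≤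
      CH F.p (F.ctt w q l i0 z) F.Z +
      CH F.p (F.mlb 0 (qcv q l i0) (qcv q l i0) (fun ω => zfr i0 (z ω)))
        (F.ctt w q l i0 z) := by
    have d1 := CH_le_add h0 (F.mlb 0 (qcv q l i0) (qcv q l i0) (fun ω => zfr i0 (z ω)))
      (F.ctt w q l i0 z) F.Z
    have d2 : CH F.p (F.mlb 0 (qcv q l i0) (qcv q l i0) (fun ω => zfr i0 (z ω)))
        (fun ω => (F.ctt w q l i0 z ω, F.Z ω)) ≤
        CH F.p (F.mlb 0 (qcv q l i0) (qcv q l i0) (fun ω => zfr i0 (z ω)))
          (F.ctt w q l i0 z) :=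
      CH_mono_cond h0 (fun ω ω' _ _ h => (Prod.ext_iff.mp h).1)
    linarith
  have k4 : (∑ ω, F.p ω * ∑ i, ((J : ℝ) -
      (lblc F (qcv q l i0) (fun ω => zfr i0 (z ω)) hc hM hI).k ω i)) =
      ∑ i, ((J : ℝ) - qcv q l i0 i) := by
    have e3 : ∀ ω, (lblc F (qcv q l i0) (fun ω => zfr i0 (z ω)) hc hM hI).k ω =
        qcv q l i0 := fun _ => rfl
    simp only [e3]
    rw [← Finset.sum_mul, hp.sum_one, one_mul]
  have k5 : ∑ i, ((J : ℝ) - qcv q l i0 i) = m * ((J : ℝ) - q) - (m - 1) * l := by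
    have h1 : ∀ i : Fin m, ((J : ℝ) - qcv q l i0 i) =
        ((J : ℝ) - q - l) + (if i = i0 then (l : ℝ) else 0) := by
      intro i
      unfold qcv
      split_ifs
      · ring
      · push_cast
        ring
    rw [Finset.sum_congr rfl fun i _ => h1 i, Finset.sum_add_distrib]
    simp
    ring
  have k6 : CH F.p (F.T1 w) (fun ω => (F.l ω, F.Z ω)) ≤ w * Real.log 2 := by
    have h1 := CH_le_card h0 hp.sum_one (F.T1 w) (fun ω => (F.l ω, F.Z ω))
      (fun _ => range (2 ^ w)) (fun ω _ => by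
        rw [Finset.mem_range]
        show F.T ω / 2 ^ (J - w) < 2 ^ w
        rw [Nat.div_lt_iff_lt_mul (by positivity), ← pow_add, Nat.add_sub_cancel' hw]
        exact F.tim ω)
    refine h1.trans (le_of_eq ?_)
    rw [Ex_const hp.sum_one, Finset.card_range]
    push_cast
    rw [Real.log_pow]
  unfold Lbl.cost
  rw [k4, k5]
  linarith

end Pool.PC
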