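import Pool.Agent.H54.PC.BoxDefs
import Pool.Agent.H87.PC.TH
import Pool.Agent.H83.UEG.Two

/-!
# Plan C: closed slopes

`Clo F A a w r`: on `A`, the slope `a` is known to `r` digits from the line and the window `w`.
-/

set_option autoImplicit false

namespace Pool.PC

open Finset Real
open Pool.Agent.H49.Ent Pool.Agent.H32.Dense Pool.STK Pool.KA Pool.KSAT Pool.K2S

variable {m J : ℕ}

variable {F : Fam m J} {A A' : F.Ω → Prop} {a : F.Ω → ℝ} {w w' r r' : ℕ}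

theorem Clo.evt (h : Clo F A a w r) (hA : ∀ ω, A' ω → A ω) : Clo F A' a w r :=
  fun ω ω' h1 h2 => h ω ω' ⟨h1.1, hA ω h1.2⟩ ⟨h2.1, hA ω' h2.2⟩

theorem Clo.digits (h : Clo F A a w r) (hr : r' ≤ r) : Clo F A a w r' :=
  fun ω ω' h1 h2 h3 => (h ω ω' h1 h2 h3).trans
    (div_le_div_of_nonneg_left (by norm_num) (by positivity)
      (pow_le_pow_right₀ (by norm_num) hr))

theorem slam_up70 (hww : w ≤ w') (hw' : w' ≤ J) {ω ω' : F.Ω}
    (h : slam F w' ω = slam F w' ω') : slam F w ω = slam F w ω' := by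
  obtain ⟨K, rfl⟩ := Nat.exists_eq_add_of_le hww
  have h1 := Prod.ext_iff.mp h
  have h2 := Prod.ext_iff.mp h1.2
  have h3 : F.T1 (w + K) ω = F.T1 (w + K) ω' := h2.2
  refine Prod.ext h1.1 (Prod.ext h2.1 ?_)
  show F.T1 w ω = F.T1 w ω'
  rw [Pool.KSAT.T1_div F hw' ω, Pool.KSAT.T1_div F hw' ω', h3]

/-- Shorter windows know more. -/
theorem Clo.window (h : Clo F A a w r) (hww : w ≤ w') (hw' : w' ≤ J) : Clo F A a w' r :=
  fun ω ω' h1 h2 h3 => h ω ω' h1 h2 (slam_up70 hww hw' h3)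

/-- Zero digits are free. -/
theorem clo_zero (ha : ∀ ω, On F A ω → |a ω| ≤ 1) : Clo F A a w 0 := by
  intro ω ω' h1 h2 _
  rw [pow_zero, div_one]
  refine (abs_sub _ _).trans ?_
  have := ha ω h1
  have := ha ω' h2
  linarith

/-- The last window knows everything which the exact point and the line know. -/
theorem clo_last (h : ∀ ω ω', On F A ω → On F A ω' → F.l ω = F.l ω' → F.T ω = F.T ω' →
    F.Z ω = F.Z ω' → a ω = a ω') : Clo F A a J r := by
  intro ω ω' h1 h2 h3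
  have k1 := Prod.ext_iff.mp h3
  have k2 := Prod.ext_iff.mp k1.2
  have k3 : F.T1 J ω = F.T1 J ω' := k2.2
  rw [Lab.T1_J, Lab.T1_J] at k3
  rw [h ω ω' h1 h2 k1.1 k3 k2.1, sub_self, abs_zero]
  positivity

open Classical in
/-- The slope of the window. -/
noncomputable def wsl (F : Fam m J) (A : F.Ω → Prop) (a : F.Ω → ℝ) (w r : ℕ)
    (s : ((Fin m → ℝ) × (Fin m → ℝ)) × F.ζ × ℕ) : ℝ :=
  if h : ∃ ω, On F A ω ∧ slam F w ω = s then
    (⌊(2 : ℝ) ^ r * a (Classical.choose h)⌋ : ℝ) / 2 ^ r else 0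

theorem wsl_grid (s : ((Fin m → ℝ) × (Fin m → ℝ)) × F.ζ × ℕ) :
    ∃ n : ℤ, wsl F A a w r s = n / 2 ^ r := by
  unfold wsl
  split_ifs with h
  · exact ⟨_, rfl⟩
  · exact ⟨0, by simp⟩

theorem wsl_le (ha : ∀ ω, On F A ω → |a ω| ≤ 1) (s : ((Fin m → ℝ) × (Fin m → ℝ)) × F.ζ × ℕ) :
    |wsl F A a w r s| ≤ 1 := by
  unfold wsl
  split_ifs with h
  · have h1 := ha _ (Classical.choose_spec h).1
    generalize a (Classical.choose h) = x at h1 ⊢
    have h2 : (0 : ℝ) < 2 ^ r := by positivity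
    rw [abs_div, abs_of_pos h2, div_le_one h2]
    rw [abs_le] at h1 ⊢
    have h3 := Int.floor_le ((2 : ℝ) ^ r * x)
    have h4 : (-(2 ^ r : ℕ) : ℤ) ≤ ⌊(2 : ℝ) ^ r * x⌋ := by
      rw [Int.le_floor]
      push_cast
      nlinarith [h1.1]
    have h5 : (-(2 : ℝ) ^ r) ≤ (⌊(2 : ℝ) ^ r * x⌋ : ℝ) := by
      have : ((-(2 ^ r : ℕ) : ℤ) : ℝ) ≤ ((⌊(2 : ℝ) ^ r * x⌋ : ℤ) : ℝ) := by exact_mod_cast h4
      push_cast at this
      exact this
    constructor
    · exact h5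
    · nlinarith [h1.2]
  · simp

theorem wsl_near (h : Clo F A a w r) {ω : F.Ω} (hω : On F A ω) :
    |a ω - wsl F A a w r (slam F w ω)| ≤ 3 / 2 ^ r := by
  have hex : ∃ o, On F A o ∧ slam F w o = slam F w ω := ⟨ω, hω, rfl⟩
  unfold wsl
  rw [dif_pos hex]
  obtain ⟨c1, c2⟩ := Classical.choose_spec hex
  have h1 := h ω (Classical.choose hex) hω c1 c2.symm
  have h2 := rnd_near r (a (Classical.choose hex))
  rw [abs_sub_comm] at h2
  have e : (3 : ℝ) / 2 ^ r = 2 / 2 ^ r + 1 / 2 ^ r := by ring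
  rw [e]
  exact (abs_sub_le _ (a (Classical.choose hex)) _).trans (add_le_add h1 h2)

/-- **(1)** A closed slope has a slope of the window, on the grid. -/
theorem Clo.slope (h : Clo F A a w r) (ha : ∀ ω, On F A ω → |a ω| ≤ 1) :
    ∃ aw : F.Ω → ℝ, (∃ ψ : (((Fin m → ℝ) × (Fin m → ℝ)) × F.ζ × ℕ) → ℝ,
        ∀ ω, aw ω = ψ (slam F w ω)) ∧ (∀ ω, ∃ n : ℤ, aw ω = n / 2 ^ r) ∧
      (∀ ω, |aw ω| ≤ 1) ∧ ∀ ω, On F A ω → |a ω - aw ω| ≤ 3 / 2 ^ r :=
  ⟨fun ω => wsl F A a w r (slam F w ω), ⟨wsl F A a w r, fun _ => rfl⟩, fun _ => wsl_grid _,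
    fun _ => wsl_le ha _, fun _ hω => wsl_near h hω⟩

/-- Positive probability for the conditioned law. -/
theorem cond_pos_on {ω : F.Ω} (h : 0 < Pool.Agent.H49.Ent.cond F.p A True ω) : On F A ω := by
  unfold Pool.Agent.H49.Ent.cond at h
  by_cases h1 : A ω = True
  · rw [if_pos h1] at h
    have h2 : 0 < F.p ω := by
      rcases (F.isLaw.nonneg ω).eq_or_lt with h3 | h3
      · rw [← h3, zero_div] at h
        exact absurd h (lt_irrefl _)
      · exact h3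
    exact ⟨h2, of_eq_true h1⟩
  · rw [if_neg h1] at h
    exact absurd h (lt_irrefl _)

/-- **(3)** Pairs of times which see near slopes give a closed part. -/
theorem clo_pairs (F : Fam m J) (E : F.Ω → Prop)
    (h : IsLaw (Pool.Agent.H49.Ent.cond F.p E True)) (a : F.Ω → ℝ) (w r : ℕ) :
    ∃ E' : F.Ω → Prop, (∀ ω, E' ω → E ω) ∧ Clo F E' a w r ∧
      Pe (dbl (Pool.Agent.H49.Ent.cond F.p E True) (slam F w))
        (fun u => |a u.1 - a u.2| ≤ 1 / 2 ^ r) * Pe F.p E ≤ Pe F.p E' := by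
  classical
  obtain ⟨φ, -, h2⟩ := th_ev h (slam F w) a (fun x y => |x - y| ≤ 1 / 2 ^ r)
  refine ⟨fun ω => E ω ∧ |φ (slam F w ω) - a ω| ≤ 1 / 2 ^ r, fun ω hω => hω.1, ?_, ?_⟩
  · intro ω ω' h3 h4 h5
    have k1 := h3.2.2
    have k2 := h4.2.2
    rw [← h5] at k2
    rw [abs_sub_comm] at k1
    have e : (2 : ℝ) / 2 ^ r = 1 / 2 ^ r + 1 / 2 ^ r := by ring
    rw [e]
    exact (abs_sub_le _ (φ (slam F w ω)) _).trans (add_le_add k1 k2)
  · have hE0 : 0 ≤ Pe F.p E := by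
      rw [Pe_eq]
      exact Finset.sum_nonneg fun ω _ => by split_ifs; exacts [F.isLaw.nonneg ω, le_rfl]
    rcases hE0.eq_or_lt with h0 | h0
    · rw [← h0, mul_zero]
      rw [Pe_eq]
      exact Finset.sum_nonneg fun ω _ => by split_ifs; exacts [F.isLaw.nonneg ω, le_rfl]
    · have h3 : Pe (Pool.Agent.H49.Ent.cond F.p E True)
          (fun ω => |φ (slam F w ω) - a ω| ≤ 1 / 2 ^ r) =
          Pe F.p (fun ω => E ω ∧ |φ (slam F w ω) - a ω| ≤ 1 / 2 ^ r) / Pe F.p E := Pe_cond _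
      rw [h3, le_div_iff₀ h0] at h2
      exact h2

/-- Maximality of the number of closed digits separates the slopes of pairs of times: if no part of
`E` of probability at least `c` times that of `E` is closed to `r` digits, then the pairs which see
slopes that agree to `r` digits have probability at most `c`. -/
theorem pairs_of_not_clo (F : Fam m J) (E : F.Ω → Prop)
    (h : IsLaw (Pool.Agent.H49.Ent.cond F.p E True)) (a : F.Ω → ℝ) (w r : ℕ) {c : ℝ}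
    (hE : 0 < Pe F.p E)
    (hn : ∀ E' : F.Ω → Prop, (∀ ω, E' ω → E ω) → c * Pe F.p E < Pe F.p E' →
      ¬ Clo F E' a w r) :
    Pe (dbl (Pool.Agent.H49.Ent.cond F.p E True) (slam F w))
      (fun u => |a u.1 - a u.2| ≤ 1 / 2 ^ r) ≤ c := by
  obtain ⟨E', h1, h2, h3⟩ := clo_pairs F E h a w r
  by_contra hcon
  push Not at hcon
  refine hn E' h1 (lt_of_lt_of_le ?_ h3) h2
  exact mul_lt_mul_of_pos_right hcon hE

/-- **The structure `Rc2`** from closed slopes at all windows of a range. -/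
theorem rc2_of_clo {J : ℕ} {F : Fam 2 J} {A : F.Ω → Prop} {a : F.Ω → ℝ}
    (h : IsLaw (Pool.Agent.H49.Ent.cond F.p A True)) {σ : Fin 2 → Fin 2}
    (hσ : Function.Injective σ) {wa wb : ℕ} {vp : ℕ → ℕ} {D : ℕ} (hwb : wb ≤ J)
    (ha : ∀ ω, On F A ω → |a ω| ≤ 1)
    (hvp : ∀ w w', wa ≤ w → w ≤ w' → w' ≤ wb → vp w ≤ vp w')
    (hD : ∀ w, wa ≤ w → w ≤ wb → vp w ≤ D)
    (hc : ∀ w, wa ≤ w → w ≤ wb → Clo F A a w (vp w)) :
    ∃ aw : ℕ → F.Ω → ℝ, Pool.UEG.Rc2 F (Pool.Agent.H49.Ent.cond F.p A True) σ wa wb vp D aw a ∧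
      (∀ w ω, |aw w ω| ≤ 1) ∧
      (∀ w, ∃ ψ : (((Fin 2 → ℝ) × (Fin 2 → ℝ)) × F.ζ × ℕ) → ℝ, ∀ ω, aw w ω = ψ (slam F w ω)) ∧
      ∀ w ω, ∃ n : ℤ, aw w ω = n / 2 ^ vp w := by
  refine ⟨fun w ω => wsl F A a w (vp w) (slam F w ω), ?_, fun w ω => wsl_le ha _,
    fun w => ⟨wsl F A a w (vp w), fun _ => rfl⟩, fun w ω => wsl_grid _⟩
  exact
    { law := h
      inj := hσ
      wJ := hwb
      mono := hvp
      vD := hD
      near := fun w h1 h2 ω hω => wsl_near (hc w h1 h2) (cond_pos_on hω)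
      grid := fun w h1 h2 ω hω => wsl_grid _
      det := fun w h1 h2 ω ω' _ _ hs => by
        show wsl F A a w (vp w) (slam F w ω) = wsl F A a w (vp w) (slam F w ω')
        rw [hs] }

end Pool.PC
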