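import Pool.Agent.H70.PC.NestT
import Pool.Agent.H64.PC.Full

/-!
# Plan C: the two forms of the contexts in the plane

`F.ctz w q l (σ 0) z` and `F.blb w (cv2 l q) M`, where `M` is the frame with the slope `z (σ 1)`,
are functions of each other. The same for the truncated contexts.
-/

set_option autoImplicit false

namespace Pool.PC

open Finset Real
open Pool.Agent.H49.Ent Pool.Agent.H32.Dense Pool.STK Pool.KA Pool.LK Pool.KSAT

variable {J : ℕ} {F : Fam 2 J} {σ : Fin 2 → Fin 2} {w q l : ℕ} {i0 : Fin 2}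
  {z : F.Ω → Fin 2 → ℝ} {M : F.Ω → Fin 2 → Fin 2 → ℝ} {a : F.Ω → ℝ} {ω ω' : F.Ω}

theorem isf_M {A B : Fin 2 → Fin 2 → ℝ} {x : ℝ} (hA : Isf σ A x) (hB : Isf σ B x) : A = B := by
  have h1 : ∀ (A : Fin 2 → Fin 2 → ℝ) (i j : Fin 2),
      A i j = mco A (fun k => if k = j then 1 else 0) i := by
    intro A i j
    unfold mco
    simp
  funext i j
  rw [h1 A, h1 B]
  obtain ⟨a1, a2⟩ := hA fun k => if k = j then 1 else 0
  obtain ⟨b1, b2⟩ := hB fun k => if k = j then 1 else 0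
  fin_cases i
  · exact a1.trans b1.symm
  · exact a2.trans b2.symm

/-- All indices are `σ 0` or `σ 1`. -/
theorem sg_cases (hσ : Function.Injective σ) (i : Fin 2) : i = σ 0 ∨ i = σ 1 := by
  obtain ⟨j, hj⟩ := (Finite.injective_iff_surjective.1 hσ) i
  fin_cases j
  · exact Or.inl hj.symm
  · exact Or.inr hj.symm

/-- Labels with the precisions `k` of the positions. -/
theorem mlb_brd (hσ : Function.Injective σ) (k : Fin 2 → ℕ) (k' : Fin 2 → ℕ)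
    (hk0 : k' 0 = k (σ 0)) (hk1 : k' 1 = k (σ 1)) (hi0 : i0 = σ 0)
    (h1 : Isf σ (M ω) (a ω)) (h2 : Isf σ (M ω') (a ω'))
    (z1 : z ω (σ 1) = a ω) (z2 : z ω' (σ 1) = a ω') :
    F.mlb w k (qcv q l i0) (fun ω => zfr i0 (z ω)) ω =
        F.mlb w k (qcv q l i0) (fun ω => zfr i0 (z ω)) ω' ↔
      F.mlb w k' (cv2 l q) M ω = F.mlb w k' (cv2 l q) M ω' := by
  subst hi0
  have hne : σ 1 ≠ σ 0 := fun h => by simpa using hσ h
  have c0 : qcv q l (σ 0) (σ 0) = q := by unfold qcv; rw [if_pos rfl]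
  have c1 : qcv q l (σ 0) (σ 1) = q + l := by unfold qcv; rw [if_neg hne]
  constructor
  · intro h
    obtain ⟨a1, a2, a3, a4, a5⟩ := Box.mlb_ext h
    have ha : a ω = a ω' := by
      rw [← z1, ← z2]
      exact zfr_eq a2 hne
    have hM : M ω = M ω' := isf_M h1 (by rw [ha]; exact h2)
    refine Box.mlb_mk a1 hM ?_ ?_ a5
    · funext i
      fin_cases i
      · have e := congrFun a3 (σ 0)
        have e' : ⌊(2 : ℝ) ^ k (σ 0) * mco (zfr (σ 0) (z ω)) (F.x1 w ω) (σ 0)⌋ =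
          ⌊(2 : ℝ) ^ k (σ 0) * mco (zfr (σ 0) (z ω')) (F.x1 w ω') (σ 0)⌋ := e
        rw [zfr_i0, zfr_i0, ← hk0] at e'
        show ⌊(2 : ℝ) ^ k' 0 * mco (M ω) (F.x1 w ω) 0⌋ =
          ⌊(2 : ℝ) ^ k' 0 * mco (M ω') (F.x1 w ω') 0⌋
        rw [(h1 _).1, (h2 _).1]
        exact e'
      · have e := congrFun a3 (σ 1)
        have e' : ⌊(2 : ℝ) ^ k (σ 1) * mco (zfr (σ 0) (z ω)) (F.x1 w ω) (σ 1)⌋ =
          ⌊(2 : ℝ) ^ k (σ 1) * mco (zfr (σ 0) (z ω')) (F.x1 w ω') (σ 1)⌋ := e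
        rw [zfr_ne hne, zfr_ne hne, ← hk1, z1, z2] at e'
        show ⌊(2 : ℝ) ^ k' 1 * mco (M ω) (F.x1 w ω) 1⌋ =
          ⌊(2 : ℝ) ^ k' 1 * mco (M ω') (F.x1 w ω') 1⌋
        rw [(h1 _).2, (h2 _).2]
        exact e'
    · funext i
      fin_cases i
      · have e' : ⌊(2 : ℝ) ^ qcv q l (σ 0) (σ 0) * mco (zfr (σ 0) (z ω)) (F.d ω) (σ 0)⌋ =
          ⌊(2 : ℝ) ^ qcv q l (σ 0) (σ 0) * mco (zfr (σ 0) (z ω')) (F.d ω') (σ 0)⌋ :=
          congrFun a4 (σ 0)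
        rw [zfr_i0, zfr_i0, c0] at e'
        show ⌊(2 : ℝ) ^ q * mco (M ω) (F.d ω) 0⌋ = ⌊(2 : ℝ) ^ q * mco (M ω') (F.d ω') 0⌋
        rw [(h1 _).1, (h2 _).1]
        exact e'
      · have e' : ⌊(2 : ℝ) ^ qcv q l (σ 0) (σ 1) * mco (zfr (σ 0) (z ω)) (F.d ω) (σ 1)⌋ =
          ⌊(2 : ℝ) ^ qcv q l (σ 0) (σ 1) * mco (zfr (σ 0) (z ω')) (F.d ω') (σ 1)⌋ :=
          congrFun a4 (σ 1)
        rw [zfr_ne hne, zfr_ne hne, c1, z1, z2] at e'
        show ⌊(2 : ℝ) ^ (l + q) * mco (M ω) (F.d ω) 1⌋ =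
          ⌊(2 : ℝ) ^ (l + q) * mco (M ω') (F.d ω') 1⌋
        rw [(h1 _).2, (h2 _).2, add_comm l q]
        exact e'
  · intro h
    obtain ⟨a1, a2, a3, a4, a5⟩ := Box.mlb_ext h
    have ha : a ω = a ω' := by
      rw [← a2] at h2
      exact Full.isf_inj h1 h2
    have hz : zfr (σ 0) (z ω) = zfr (σ 0) (z ω') := zfr_mk fun i hi => by
      rcases sg_cases hσ i with rfl | rfl
      · exact absurd rfl hi
      · rw [z1, z2, ha]
    refine Box.mlb_mk (M := fun ω => zfr (σ 0) (z ω)) a1 hz ?_ ?_ a5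
    · funext i
      show ⌊(2 : ℝ) ^ k i * mco (zfr (σ 0) (z ω)) (F.x1 w ω) i⌋ =
        ⌊(2 : ℝ) ^ k i * mco (zfr (σ 0) (z ω')) (F.x1 w ω') i⌋
      rcases sg_cases hσ i with rfl | rfl
      · have e' : ⌊(2 : ℝ) ^ k' 0 * mco (M ω) (F.x1 w ω) 0⌋ =
          ⌊(2 : ℝ) ^ k' 0 * mco (M ω') (F.x1 w ω') 0⌋ := congrFun a3 0
        rw [(h1 _).1, (h2 _).1, hk0] at e'
        rw [zfr_i0, zfr_i0]
        exact e'
      · have e' : ⌊(2 : ℝ) ^ k' 1 * mco (M ω) (F.x1 w ω) 1⌋ =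
          ⌊(2 : ℝ) ^ k' 1 * mco (M ω') (F.x1 w ω') 1⌋ := congrFun a3 1
        rw [(h1 _).2, (h2 _).2, hk1] at e'
        rw [zfr_ne hne, zfr_ne hne, z1, z2]
        exact e'
    · funext i
      show ⌊(2 : ℝ) ^ qcv q l (σ 0) i * mco (zfr (σ 0) (z ω)) (F.d ω) i⌋ =
        ⌊(2 : ℝ) ^ qcv q l (σ 0) i * mco (zfr (σ 0) (z ω')) (F.d ω') i⌋
      rcases sg_cases hσ i with rfl | rfl
      · have e' : ⌊(2 : ℝ) ^ q * mco (M ω) (F.d ω) 0⌋ =
          ⌊(2 : ℝ) ^ q * mco (M ω') (F.d ω') 0⌋ := congrFun a4 0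
        rw [(h1 _).1, (h2 _).1] at e'
        rw [zfr_i0, zfr_i0, c0]
        exact e'
      · have e' : ⌊(2 : ℝ) ^ (l + q) * mco (M ω) (F.d ω) 1⌋ =
          ⌊(2 : ℝ) ^ (l + q) * mco (M ω') (F.d ω') 1⌋ := congrFun a4 1
        rw [(h1 _).2, (h2 _).2] at e'
        rw [zfr_ne hne, zfr_ne hne, c1, z1, z2, add_comm q l]
        exact e'

/-- **The two forms of a context.** -/
theorem ctz_blb (hσ : Function.Injective σ) (h1 : Isf σ (M ω) (a ω)) (h2 : Isf σ (M ω') (a ω'))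
    (z1 : z ω (σ 1) = a ω) (z2 : z ω' (σ 1) = a ω') :
    F.ctz w q l (σ 0) z ω = F.ctz w q l (σ 0) z ω' ↔
      F.blb w (cv2 l q) M ω = F.blb w (cv2 l q) M ω' := by
  have hne : σ 1 ≠ σ 0 := fun h => by simpa using hσ h
  refine mlb_brd (F := F) (w := w) (q := q) (l := l) hσ (fun i => qcv q l (σ 0) i + w)
    (fun i => cv2 l q i + w) ?_ ?_ rfl h1 h2 z1 z2
  · show q + w = qcv q l (σ 0) (σ 0) + w
    unfold qcv
    rw [if_pos rfl]
  · show l + q + w = qcv q l (σ 0) (σ 1) + w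
    unfold qcv
    rw [if_neg hne, add_comm l q]

/-- **The two forms of a truncated context.** -/
theorem ctt_mlb (hσ : Function.Injective σ) (h1 : Isf σ (M ω) (a ω)) (h2 : Isf σ (M ω') (a ω'))
    (z1 : z ω (σ 1) = a ω) (z2 : z ω' (σ 1) = a ω') :
    F.ctt w q l (σ 0) z ω = F.ctt w q l (σ 0) z ω' ↔
      F.mlb w (fun i => min (cv2 l q i + w) J) (cv2 l q) M ω =
        F.mlb w (fun i => min (cv2 l q i + w) J) (cv2 l q) M ω' := by
  have hne : σ 1 ≠ σ 0 := fun h => by simpa using hσ h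
  refine mlb_brd (F := F) (w := w) (q := q) (l := l) hσ (fun i => min (qcv q l (σ 0) i + w) J)
    (fun i => min (cv2 l q i + w) J) ?_ ?_ rfl h1 h2 z1 z2
  · show min (q + w) J = min (qcv q l (σ 0) (σ 0) + w) J
    unfold qcv
    rw [if_pos rfl]
  · show min (l + q + w) J = min (qcv q l (σ 0) (σ 1) + w) J
    unfold qcv
    rw [if_neg hne, add_comm l q]

/-- The frame matrix of a chart satisfies `Isf`, with the rows permuted. -/
def frs (σ : Fin 2 → Fin 2) (x : ℝ) (i j : Fin 2) : ℝ :=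
  if i = 0 then (if j = σ 0 then 1 else 0) else (if j = σ 1 then 1 else if j = σ 0 then -x else 0)

theorem isf_frs (hσ : Function.Injective σ) (x : ℝ) : Isf σ (frs σ x) x := by
  have hne : σ 1 ≠ σ 0 := fun h => by simpa using hσ h
  intro y
  constructor
  · unfold mco frs
    simp
  · unfold mco frs
    have h1 : ∀ j : Fin 2, (if (1 : Fin 2) = 0 then (if j = σ 0 then (1 : ℝ) else 0)
        else (if j = σ 1 then 1 else if j = σ 0 then -x else 0)) * y j =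
        (if j = σ 1 then y j else 0) + (if j = σ 0 then -x * y j else 0) := by
      intro j
      by_cases h2 : j = σ 1
      · simp [h2, hne]
      · simp [h2]
    rw [Finset.sum_congr rfl fun j _ => h1 j, Finset.sum_add_distrib]
    simp
    ring

end Pool.PC
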