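import Pool.Agent.H70.PC.Th
import Pool.Agent.H15.PC.Fam

/-!
# Plan C: one level of one family from the output of the class side

The fields `cl`, `th`, `ac` of `Lvl` from `ClsLvl`.
-/

set_option autoImplicit false

namespace Pool.PC

open Finset Real
open Pool.Agent.H49.Ent Pool.Agent.H32.Dense Pool.STK Pool.KA Pool.KSAT Pool.K2S Pool.LK

section lvof

variable {J M : ℕ} {δ g κ : ℝ} {F : Fam 2 J} {S : Num M δ g κ}
  {W Q : Finset ℚ} {h₁ ϖ : ℝ} {B : ℕ → Bx F} {N : ℕ → ℝ}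

/-- The window of the mesh. -/
theorem msh_eq (J n i : ℕ) : msh J n i = ⌊(((i : ℚ) / (n : ℚ) : ℚ) : ℝ) * J⌋₊ := by
  unfold msh
  push_cast
  rfl

theorem msh_le70 {J n i : ℕ} (hn : 1 ≤ n) (hi : i ≤ n) : msh J n i ≤ J := by
  unfold msh
  have h1 : (0 : ℝ) < n := by exact_mod_cast hn
  have h2 : (i : ℝ) ≤ n := by exact_mod_cast hi
  have h3 : (i : ℝ) / n * J ≤ (J : ℝ) := by
    have : (i : ℝ) / n ≤ 1 := (div_le_one h1).2 h2
    have := mul_le_mul_of_nonneg_right this (Nat.cast_nonneg J : (0 : ℝ) ≤ J)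
    linarith
  exact (Nat.floor_le_floor h3).trans (by rw [Nat.floor_natCast])

/-- **(cl)** -/
theorem cl_of_cls (L : ClsLvl F (fun _ => True) S W Q h₁ ϖ B N) {n k : ℕ} (hk : k < M)
    (hn : 1 ≤ n) (hW : ∀ i : ℕ, i ≤ n → ((i : ℚ) / (n : ℚ) : ℚ) ∈ W) {h : ℝ} (hh : h₁ ≤ h) :
    ∀ i ≤ n, Clo F (fun _ => True) (B k).a (msh J n i)
      ⌊(S.rot k ((i : ℝ) / n) - h) * J⌋₊ := by
  intro i hi
  have hn0 : (0 : ℝ) < n := by exact_mod_cast hn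
  have hin : (i : ℝ) ≤ n := by exact_mod_cast hi
  have hx : (((i : ℚ) / (n : ℚ) : ℚ) : ℝ) = (i : ℝ) / n := by push_cast; rfl
  rcases le_or_gt 0 ((S.rot k ((i : ℝ) / n) - h) * J) with h0 | h0
  · rw [msh_eq]
    refine L.clo_nat hk (hW i hi) ?_ ?_ le_rfl ?_ ?_
    · rw [hx]
      positivity
    · rw [hx]
      exact (div_le_one hn0).2 hin
    · rw [← msh_eq]
      exact msh_le70 hn hi
    · rw [hx]
      refine (Nat.floor_le h0).trans ?_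
      have : (S.rot k ((i : ℝ) / n) - h) * J ≤ (S.rot k ((i : ℝ) / n) - h₁) * J :=
        mul_le_mul_of_nonneg_right (by linarith) (Nat.cast_nonneg J)
      linarith
  · rw [Nat.floor_of_nonpos h0.le]
    exact clo_zero fun ω hω => (L.chn.ok k hk).sl ω hω

/-- **(th)** -/
theorem th_of_cls (L : ClsLvl F (fun _ => True) S W Q h₁ ϖ B N) {n k : ℕ} (hk : k < M)
    (hn : 1 ≤ n) (hW : ∀ i : ℕ, i ≤ n → ((i : ℚ) / (n : ℚ) : ℚ) ∈ W) {h : ℝ} (h0 : 0 < h)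
    (hh : 2 * h₁ ≤ h) (hJ : 2 ≤ h * J) (hϖ : ϖ ≤ h * h)
    (hgap : ∀ i : ℕ, i ≤ n → S.rot k ((i : ℝ) / n) < S.n k - S.q k →
      S.rot k ((i : ℝ) / n) + 2 * h₁ ≤ S.n k - S.q k) :
    ∀ i ≤ n, S.rot k ((i : ℝ) / n) < S.n k - S.q k → ∀ E : F.Ω → Prop, h ≤ Pe F.p E →
      Pe (dbl (Pool.Agent.H49.Ent.cond F.p E True) (slam F (msh J n i)))
        (fun v => |(B k).a v.1 - (B k).a v.2| ≤ 1 / 2 ^ ⌈(S.rot k ((i : ℝ) / n) + h) * J⌉₊) ≤ h := by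
  intro i hi hr E hE
  have hn0 : (0 : ℝ) < n := by exact_mod_cast hn
  have hin : (i : ℝ) ≤ n := by exact_mod_cast hi
  have hx : (((i : ℚ) / (n : ℚ) : ℚ) : ℝ) = (i : ℝ) / n := by push_cast; rfl
  refine L.pairs_sure hk (hW i hi) ?_ ?_ ?_ (le_of_eq (msh_eq J n i)) ?_ h0.le hϖ h0 hE
  · rw [hx]
    positivity
  · rw [hx]
    exact (div_le_one hn0).2 hin
  · rw [hx]
    exact hgap i hi hr
  · rw [hx]
    refine le_trans ?_ (Nat.le_ceil _)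
    have hJ0 : (0 : ℝ) ≤ J := Nat.cast_nonneg J
    nlinarith

end lvof

end Pool.PC
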