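import Pool.Agent.H70.PC.Ends
import Pool.Agent.H8.KS6.BoxR

/-!
# Plan C: the contexts `b(w; q)` as boxes: nestedness, closedness

`F.ctz w q l i0 z` is the natural box of the window `w` with the precisions `q` in the coordinate
`i0` and `q + l` in the coordinates `x i - z i * x i0`.
-/

set_option autoImplicit false

namespace Pool.KA

/-- The context `(w, q, l)` with the frame `z`. -/
noncomputable def Fam.ctz {m J : ℕ} (F : Fam m J) (w q l : ℕ) (i0 : Fin m)
    (z : F.Ω → Fin m → ℝ) := F.blb w (Pool.PC.qcv q l i0) (fun ω => Pool.PC.zfr i0 (z ω))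

end Pool.KA

namespace Pool.PC

open Finset Real
open Pool.Agent.H49.Ent Pool.Agent.H32.Dense Pool.STK Pool.KA Pool.LK Pool.KSAT

variable {m J : ℕ}

/-- The change of the frame. -/
def zch (i0 : Fin m) (z z' : Fin m → ℝ) (i j : Fin m) : ℝ :=
  if i = i0 then (if j = i0 then 1 else 0)
  else (if j = i then 1 else if j = i0 then z i - z' i else 0)

theorem cg_zfr (i0 : Fin m) (z z' : Fin m → ℝ) : Cg (zfr i0 z) (zfr i0 z') (zch i0 z z') := by
  intro x i
  by_cases hi : i = i0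
  · subst hi
    have h1 : ∀ j, zch i z z' i j * mco (zfr i z) x j =
        if j = i then mco (zfr i z) x j else 0 := by
      intro j
      unfold zch
      simp
    rw [zfr_i0, Finset.sum_congr rfl fun j _ => h1 j]
    simp [zfr_i0]
  · have h1 : ∀ j, zch i0 z z' i j * mco (zfr i0 z) x j =
        (if j = i then mco (zfr i0 z) x j else 0) +
        (if j = i0 then (z i - z' i) * mco (zfr i0 z) x j else 0) := by
      intro j
      unfold zch
      simp only [if_neg hi]
      by_cases h2 : j = i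
      · have h3 : j ≠ i0 := fun h => hi (h2.symm.trans h)
        simp [h2, hi]
      · simp [h2]
    rw [Finset.sum_congr rfl fun j _ => h1 j, Finset.sum_add_distrib]
    simp only [Finset.sum_ite_eq', Finset.mem_univ, if_true]
    rw [zfr_ne hi, zfr_ne hi, zfr_i0]
    ring

theorem one_le_pw {D : ℝ} (hD : 1 ≤ D) {a b : ℕ} (h : b ≤ a) : 1 ≤ D * (2 : ℝ) ^ a / 2 ^ b := by
  rw [le_div_iff₀ (by positivity), one_mul]
  calc (2 : ℝ) ^ b ≤ 2 ^ a := pow_le_pow_right₀ (by norm_num) h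
    _ = 1 * 2 ^ a := (one_mul _).symm
    _ ≤ D * 2 ^ a := mul_le_mul_of_nonneg_right hD (by positivity)

section nest

variable {F : Fam m J} {p : F.Ω → ℝ} {w q l w' q' l' : ℕ} {i0 : Fin m}
  {z z' : F.Ω → Fin m → ℝ} {D : ℝ}

theorem ctz_ext {ω ω' : F.Ω} (h : F.ctz w q l i0 z ω = F.ctz w q l i0 z ω') :
    F.T1 w ω = F.T1 w ω' ∧ zfr i0 (z ω) = zfr i0 (z ω') ∧ F.Z ω = F.Z ω' := by
  obtain ⟨a1, a2, a3, a4, a5⟩ := Box.mlb_ext (show F.mlb w (fun i => qcv q l i0 i + w)
    (qcv q l i0) (fun ω => zfr i0 (z ω)) ω = F.mlb w (fun i => qcv q l i0 i + w)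
    (qcv q l i0) (fun ω => zfr i0 (z ω)) ω' from h)
  exact ⟨a1, a2, a5⟩

theorem zfr_eq {a b : Fin m → ℝ} (h : zfr i0 a = zfr i0 b) {i : Fin m} (hi : i ≠ i0) :
    a i = b i := by
  have h1 := congrFun (congrFun h i) i0
  unfold zfr at h1
  have hi' : ¬ i0 = i := fun h => hi h.symm
  simp only [if_neg hi, if_neg hi', if_true] at h1
  linarith

theorem zfr_mk {a b : Fin m → ℝ} (h : ∀ i, i ≠ i0 → a i = b i) : zfr i0 a = zfr i0 b := by
  funext i j
  unfold zfr
  by_cases hi : i = i0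
  · rw [if_pos hi, if_pos hi]
  · rw [if_neg hi, if_neg hi, h i hi]

/-- **Change of the context.** `W` determines the context `(w, q, l, z)`, the window `T1 w'` and
the frame `z'`. -/
theorem CH_ctz {S : Type} (hp : IsLaw p) (hw : w ≤ J) (hw' : w' ≤ J) (hD : 1 ≤ D)
    (h1 : q' + w' ≤ q + min w w') (h2 : q' + l' + w' ≤ q + l + min w w') (h3 : q' ≤ q)
    (h4 : q' + l' ≤ q + l)
    (hz : ∀ ω, 0 < p ω → ∀ i, i ≠ i0 →
      |z ω i - z' ω i| ≤ D * 2 ^ (q + min w w') / 2 ^ (q' + l' + w') ∧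
      |z ω i - z' ω i| ≤ D * 2 ^ q / 2 ^ (q' + l'))
    (W : F.Ω → S) (hW : ∀ ω ω', 0 < p ω → 0 < p ω' → W ω = W ω' →
      F.ctz w q l i0 z ω = F.ctz w q l i0 z ω' ∧ F.T1 w' ω = F.T1 w' ω' ∧
        ∀ i, i ≠ i0 → z' ω i = z' ω' i) :
    CH p (F.ctz w' q' l' i0 z') W ≤ 2 * (m * Real.log (4 * m * D + 3)) := by
  refine Box.CH_mlb (F := F) hp (g := w) (g' := w') (k := fun i => qcv q l i0 i + w)
    (c := qcv q l i0) (k' := fun i => qcv q' l' i0 i + w') (c' := qcv q' l' i0)
    (kk := fun i => qcv q l i0 i + min w w') (M := fun ω => zfr i0 (z ω))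
    (M' := fun ω => zfr i0 (z' ω)) hw hw' (by linarith)
    (fun i => Nat.add_le_add_left (min_le_left _ _) _) (fun i => le_rfl) ?_ W ?_
  · intro ω hω
    refine ⟨zch i0 (z ω) (z' ω), cg_zfr i0 (z ω) (z' ω), ?_, ?_⟩
    · intro i j
      show |zch i0 (z ω) (z' ω) i j| ≤
        D * 2 ^ (qcv q l i0 j + min w w') / 2 ^ (qcv q' l' i0 i + w')
      unfold zch qcv
      by_cases hi : i = i0
      · rw [if_pos hi, if_pos hi]
        by_cases hj : j = i0
        · rw [if_pos hj, if_pos hj, abs_one]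
          exact one_le_pw hD h1
        · rw [if_neg hj, abs_zero]
          positivity
      · rw [if_neg hi, if_neg hi]
        by_cases hj : j = i
        · have hj' : j ≠ i0 := fun h => hi (hj.symm.trans h)
          rw [if_pos hj, if_neg hj', abs_one]
          exact one_le_pw hD h2
        · rw [if_neg hj]
          by_cases hj' : j = i0
          · rw [if_pos hj', if_pos hj']
            exact (hz ω hω i hi).1
          · rw [if_neg hj', abs_zero]
            positivity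
    · intro i j
      show |zch i0 (z ω) (z' ω) i j| ≤ D * 2 ^ (qcv q l i0 j) / 2 ^ (qcv q' l' i0 i)
      unfold zch qcv
      by_cases hi : i = i0
      · rw [if_pos hi, if_pos hi]
        by_cases hj : j = i0
        · rw [if_pos hj, if_pos hj, abs_one]
          exact one_le_pw hD h3
        · rw [if_neg hj, abs_zero]
          positivity
      · rw [if_neg hi, if_neg hi]
        by_cases hj : j = i
        · have hj' : j ≠ i0 := fun h => hi (hj.symm.trans h)
          rw [if_pos hj, if_neg hj', abs_one]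
          exact one_le_pw hD h4
        · rw [if_neg hj]
          by_cases hj' : j = i0
          · rw [if_pos hj', if_pos hj']
            exact (hz ω hω i hi).2
          · rw [if_neg hj', abs_zero]
            positivity
  · intro ω ω' hω hω' h
    obtain ⟨b1, b2, b3⟩ := hW ω ω' hω hω' h
    exact ⟨b1, b2, zfr_mk b3⟩

/-- A frame of the grid `2 ^ (-l')` is known from a near frame up to a bounded number of
values. -/
theorem CH_frame {S : Type} (hp : IsLaw p) (hD : 0 ≤ D)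
    (hgr : ∀ ω i, ∃ a : ℤ, z' ω i = a / 2 ^ l')
    (hz : ∀ ω, 0 < p ω → ∀ i, i ≠ i0 → |z ω i - z' ω i| ≤ D / 2 ^ l')
    (W : F.Ω → S) (hW : ∀ ω ω', 0 < p ω → 0 < p ω' → W ω = W ω' →
      ∀ i, i ≠ i0 → z ω i = z ω' i) :
    CH p (fun ω => zfr i0 (z' ω)) W ≤ m * Real.log (4 * D + 3) := by
  have k1 := Box.CH_grid (F := F) (p := p) hp (n := m) (l := l')
    (fun ω i => if i = i0 then 0 else z' ω i) (2 * D) (by
      intro ω i
      by_cases hi : i = i0
      · exact ⟨0, by simp [hi]⟩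
      · obtain ⟨a, ha⟩ := hgr ω i
        exact ⟨a, by simp [hi, ha]⟩) W (by
      intro ω ω' hω hω' h i
      have e : 2 * D / (2 : ℝ) ^ l' = D / 2 ^ l' + D / 2 ^ l' := by ring
      by_cases hi : i = i0
      · simp only [hi, if_true, sub_self, abs_zero]
        positivity
      · simp only [hi, if_false]
        have a1 := hz ω hω i hi
        have a2 := hz ω' hω' i hi
        have a3 := hW ω ω' hω hω' h i hi
        rw [← a3] at a2
        rw [e]
        rw [abs_le] at a1 a2 ⊢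
        constructor <;> linarith [a1.1, a1.2, a2.1, a2.2])
  have e7 : 2 * (2 * D) + 3 = 4 * D + 3 := by ring
  rw [e7] at k1
  refine le_trans (CH_mono_left hp.nonneg ?_) k1
  intro ω ω' _ _ h
  have h1 := (Prod.ext_iff.mp h).1
  refine zfr_mk fun i hi => ?_
  have h2 := congrFun h1 i
  simpa [hi] using h2

theorem pw_mono {a b : ℕ} (h : a ≤ b) (hD : 0 ≤ D) : D / (2 : ℝ) ^ b ≤ D / 2 ^ a :=
  div_le_div_of_nonneg_left hD (by positivity) (pow_le_pow_right₀ (by norm_num) h)

theorem pw_shift {a b c : ℕ} (h : c ≤ a + b) (hD : 0 ≤ D) :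
    D / (2 : ℝ) ^ a ≤ D * 2 ^ b / 2 ^ c := by
  rw [div_le_div_iff₀ (by positivity) (by positivity), mul_assoc, ← pow_add]
  refine mul_le_mul_of_nonneg_left (pow_le_pow_right₀ (by norm_num) (by omega)) hD

/-- **Nestedness.** Longer windows, fewer digits. -/
theorem ctz_coarse (hp : IsLaw p) (hw : w ≤ J) (hD : 1 ≤ D) (hww : w' ≤ w) (hqq : q' ≤ q)
    (hll : l' ≤ l) (hgr : ∀ ω i, ∃ a : ℤ, z' ω i = a / 2 ^ l')
    (hz : ∀ ω, 0 < p ω → ∀ i, i ≠ i0 → |z ω i - z' ω i| ≤ D / 2 ^ l') :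
    CH p (F.ctz w' q' l' i0 z') (F.ctz w q l i0 z) ≤
      m * Real.log (4 * D + 3) + 2 * (m * Real.log (4 * m * D + 3)) := by
  have hD0 : 0 ≤ D := by linarith
  have k1 := CH_frame (F := F) (p := p) (i0 := i0) hp hD0 hgr hz (F.ctz w q l i0 z)
    (fun ω ω' _ _ h i hi => zfr_eq (ctz_ext h).2.1 hi)
  have k2 := CH_ctz (F := F) (p := p) (i0 := i0) (z := z) (z' := z') hp hw (hww.trans hw) hD
    (q := q) (q' := q') (l := l) (l' := l') (w := w) (w' := w')
    (by rw [min_eq_right hww]; omega) (by rw [min_eq_right hww]; omega) hqq (by omega)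
    (fun ω hω i hi => ⟨(hz ω hω i hi).trans (pw_shift (by
        rw [min_eq_right hww]
        omega) hD0), (hz ω hω i hi).trans (pw_shift (by omega) hD0)⟩)
    (fun ω => (zfr i0 (z' ω), F.ctz w q l i0 z ω)) (fun ω ω' _ _ h => by
      have h1 := (Prod.ext_iff.mp h).1
      have h2 : F.ctz w q l i0 z ω = F.ctz w q l i0 z ω' := (Prod.ext_iff.mp h).2
      refine ⟨h2, ?_, fun i hi => zfr_eq h1 hi⟩
      obtain ⟨K, rfl⟩ := Nat.exists_eq_add_of_le hww
      rw [Pool.KSAT.T1_div F hw ω, Pool.KSAT.T1_div F hw ω', (ctz_ext h2).1])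
  have k3 := CH_le_add hp.nonneg (F.ctz w' q' l' i0 z') (fun ω => zfr i0 (z' ω))
    (F.ctz w q l i0 z)
  linarith

/-- **The rows.** Shorter windows and fewer digits of the velocity, the same digits of the
position; the window `T1 w'` and the new frame are given. -/
theorem ctz_rows {S : Type} (hp : IsLaw p) (hw' : w' ≤ J) (hD : 1 ≤ D) (hww : w ≤ w')
    (h1 : q' + w' ≤ q + w) (h2 : q' + l' + w' ≤ q + l + w)
    (hz : ∀ ω, 0 < p ω → ∀ i, i ≠ i0 → |z ω i - z' ω i| ≤ D / 2 ^ l)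
    (W : F.Ω → S) (hW : ∀ ω ω', 0 < p ω → 0 < p ω' → W ω = W ω' →
      F.ctz w q l i0 z ω = F.ctz w q l i0 z ω' ∧ F.T1 w' ω = F.T1 w' ω' ∧
        ∀ i, i ≠ i0 → z' ω i = z' ω' i) :
    CH p (F.ctz w' q' l' i0 z') W ≤ 2 * (m * Real.log (4 * m * D + 3)) := by
  have hD0 : 0 ≤ D := by linarith
  refine CH_ctz hp (hww.trans hw') hw' hD (q := q) (q' := q') (l := l) (l' := l')
    (by rw [min_eq_left hww]; omega) (by rw [min_eq_left hww]; omega) (by omega) (by omega)
    (fun ω hω i hi => ⟨(hz ω hω i hi).trans (pw_shift (by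
        rw [min_eq_left hww]
        omega) hD0), (hz ω hω i hi).trans (pw_shift (by omega) hD0)⟩) W hW

/-- **From the exact point.** The label is known up to a bounded number of values from the exact
point, the coordinate `i0` of the velocity to `q` digits and the others, in the own frame `e` of
the exact point, to `n` digits. -/
theorem ctz_pt {S : Type} (hp : IsLaw p) (hw : w ≤ J) {B : ℝ} (hB : 1 ≤ B) (hD : 1 ≤ D) {n : ℕ}
    {e : F.Ω → Fin m → ℝ} (h1 : q' ≤ q) (h2 : q' + l' ≤ n) (h3 : q' + l' + w ≤ J)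
    (he : ∀ ω, 0 < p ω → ∀ i, |e ω i| ≤ B)
    (hz : ∀ ω, 0 < p ω → ∀ i, i ≠ i0 → |e ω i - z ω i| ≤ D / 2 ^ l')
    (W : F.Ω → S) (hW : ∀ ω ω', 0 < p ω → 0 < p ω' → W ω = W ω' →
      F.X J ω = F.X J ω' ∧ F.W ω = F.W ω' ∧ (∀ i, i ≠ i0 → e ω i = e ω' i ∧ z ω i = z ω' i) ∧
      |F.d ω i0 - F.d ω' i0| ≤ B / 2 ^ q ∧
      ∀ i, i ≠ i0 → |(F.d ω i - e ω i * F.d ω i0) - (F.d ω' i - e ω i * F.d ω' i0)| ≤
        B / 2 ^ n) :
    CH p (F.ctz w q' l' i0 z) W ≤
      2 * (m * Real.log (2 * (m * D * (2 * (m * B + B))) + 3)) := by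
  have hD0 : 0 ≤ D := by linarith
  have hB0 : 0 ≤ B := by linarith
  refine Box.CH_mlb_of_pt (F := F) (p := p) hp (g := w) hw
    (k := fun i => qcv q' l' i0 i + w) (c := qcv q' l' i0)
    (h := fun i => if i = i0 then q else n)
    (r := fun i => if i = i0 then q' + w else q' + l' + w)
    (N := fun ω => zfr i0 (e ω)) (M := fun ω => zfr i0 (z ω)) (B := B) (D := D) hB0 hD0
    ?_ ?_ ?_ ?_ W ?_
  · intro ω hω i j
    show |zfr i0 (e ω) i j| ≤ B
    unfold zfr
    split_ifs
    · rwa [abs_one]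
    · rwa [abs_zero]
    · rwa [abs_one]
    · rw [abs_neg]
      exact he ω hω i
    · rwa [abs_zero]
  · intro i
    show (if i = i0 then q' + w else q' + l' + w) ≤ J
    split_ifs <;> omega
  · intro i
    show (if i = i0 then q' + w else q' + l' + w) ≤ (if i = i0 then q else n) + w
    split_ifs <;> omega
  · intro ω hω
    refine ⟨zch i0 (e ω) (z ω), cg_zfr i0 (e ω) (z ω), ?_, ?_⟩
    · intro i j
      show |zch i0 (e ω) (z ω) i j| ≤
        D * 2 ^ (if j = i0 then q' + w else q' + l' + w) / 2 ^ (qcv q' l' i0 i + w)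
      unfold zch qcv
      by_cases hi : i = i0
      · rw [if_pos hi, if_pos hi]
        by_cases hj : j = i0
        · rw [if_pos hj, if_pos hj, abs_one]
          exact one_le_pw hD le_rfl
        · rw [if_neg hj, abs_zero]
          positivity
      · rw [if_neg hi, if_neg hi]
        by_cases hj : j = i
        · have hj' : j ≠ i0 := fun h => hi (hj.symm.trans h)
          rw [if_pos hj, if_neg hj', abs_one]
          exact one_le_pw hD le_rfl
        · rw [if_neg hj]
          by_cases hj' : j = i0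
          · rw [if_pos hj', if_pos hj']
            exact (hz ω hω i hi).trans (pw_shift (by omega) hD0)
          · rw [if_neg hj', abs_zero]
            positivity
    · intro i j
      show |zch i0 (e ω) (z ω) i j| ≤
        D * 2 ^ (if j = i0 then q else n) / 2 ^ (qcv q' l' i0 i)
      unfold zch qcv
      by_cases hi : i = i0
      · rw [if_pos hi, if_pos hi]
        by_cases hj : j = i0
        · rw [if_pos hj, if_pos hj, abs_one]
          exact one_le_pw hD h1
        · rw [if_neg hj, abs_zero]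
          positivity
      · rw [if_neg hi, if_neg hi]
        by_cases hj : j = i
        · have hj' : j ≠ i0 := fun h => hi (hj.symm.trans h)
          rw [if_pos hj, if_neg hj', abs_one]
          exact one_le_pw hD h2
        · rw [if_neg hj]
          by_cases hj' : j = i0
          · rw [if_pos hj', if_pos hj']
            exact (hz ω hω i hi).trans (pw_shift (by omega) hD0)
          · rw [if_neg hj', abs_zero]
            positivity
  · intro ω ω' hω hω' h
    obtain ⟨b1, b2, b3, b4, b5⟩ := hW ω ω' hω hω' h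
    refine ⟨b1, b2, zfr_mk fun i hi => (b3 i hi).1, zfr_mk fun i hi => (b3 i hi).2, ?_⟩
    intro i
    show |mco (zfr i0 (e ω)) (F.d ω) i - mco (zfr i0 (e ω)) (F.d ω') i| ≤
      B / 2 ^ (if i = i0 then q else n)
    by_cases hi : i = i0
    · rw [if_pos hi, hi, zfr_i0, zfr_i0]
      exact b4
    · rw [if_neg hi, zfr_ne hi, zfr_ne hi]
      exact b5 i hi

/-- **Closed contexts.** -/
theorem ctz_det (hcl : Det p (slam F w) z) : Det p (slam F w) (F.ctz w q l i0 z) := by
  intro ω ω' hω hω' h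
  have h1 := hcl ω ω' hω hω' h
  have h2 : F.l ω = F.l ω' := (Prod.ext_iff.mp h).1
  have h3 : (F.Z ω, F.T1 w ω) = (F.Z ω', F.T1 w ω') := (Prod.ext_iff.mp h).2
  exact (blb_qlb F w q l i0 z).2 ω ω' (Lab.glb_det F h2 (Prod.ext_iff.mp h3).2 h1
    (Prod.ext_iff.mp h3).1).1

/-- The window is a function of the context. -/
theorem ctz_T1 (hww : w' ≤ w) (hw : w ≤ J) : Det p (F.ctz w q l i0 z) (F.T1 w') := by
  intro ω ω' _ _ h
  obtain ⟨K, rfl⟩ := Nat.exists_eq_add_of_le hww
  rw [Pool.KSAT.T1_div F hw ω, Pool.KSAT.T1_div F hw ω', (ctz_ext h).1]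

/-- The side information is a function of the context. -/
theorem ctz_Z : Det p (F.ctz w q l i0 z) F.Z := fun _ _ _ _ h => (ctz_ext h).2.2

/-- **Nested in the velocity scale, exactly.** -/
theorem ctz_mono {r : ℕ} (hr : r ≤ q) : Det p (F.ctz w q l i0 z) (F.ctz w r l i0 z) := by
  intro ω ω' _ _ h
  obtain ⟨j, rfl⟩ := Nat.exists_eq_add_of_le hr
  obtain ⟨a1, a2, a3, a4, a5⟩ := Box.mlb_ext (show F.mlb w (fun i => qcv (r + j) l i0 i + w)
    (qcv (r + j) l i0) (fun ω => zfr i0 (z ω)) ω = F.mlb w (fun i => qcv (r + j) l i0 i + w)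
    (qcv (r + j) l i0) (fun ω => zfr i0 (z ω)) ω' from h)
  have key : ∀ {k : ℕ} {x y : ℝ}, ⌊(2 : ℝ) ^ (k + j) * x⌋ = ⌊(2 : ℝ) ^ (k + j) * y⌋ →
      ⌊(2 : ℝ) ^ k * x⌋ = ⌊(2 : ℝ) ^ k * y⌋ := by
    intro k x y h
    have e : ∀ t : ℝ, ⌊(2 : ℝ) ^ k * t⌋ = ⌊(2 : ℝ) ^ (k + j) * t⌋ / ((2 ^ j : ℕ) : ℤ) := by
      intro t
      rw [← Int.floor_div_natCast]
      congr 1
      push_cast
      rw [pow_add]
      field_simp
    rw [e, e, h]
  have e2 : ∀ i, qcv (r + j) l i0 i = qcv r l i0 i + j := by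
    intro i
    unfold qcv
    split_ifs <;> omega
  refine Box.mlb_mk (M := fun ω => zfr i0 (z ω)) a1 a2 ?_ ?_ a5
  · funext i
    have h1 : ⌊(2 : ℝ) ^ (qcv (r + j) l i0 i + w) * mco (zfr i0 (z ω)) (F.x1 w ω) i⌋ =
      ⌊(2 : ℝ) ^ (qcv (r + j) l i0 i + w) * mco (zfr i0 (z ω')) (F.x1 w ω') i⌋ := congrFun a3 i
    refine key (k := qcv r l i0 i + w) ?_
    have e3 : qcv r l i0 i + w + j = qcv (r + j) l i0 i + w := by rw [e2]; ring
    rw [e3]
    exact h1
  · funext i
    have h1 : ⌊(2 : ℝ) ^ (qcv (r + j) l i0 i) * mco (zfr i0 (z ω)) (F.d ω) i⌋ =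
      ⌊(2 : ℝ) ^ (qcv (r + j) l i0 i) * mco (zfr i0 (z ω')) (F.d ω') i⌋ := congrFun a4 i
    refine key (k := qcv r l i0 i) ?_
    rw [← e2]
    exact h1

/-- The plank label and the box label are the same, if `z i0` is constant. -/
theorem ctz_qlb (hz0 : ∀ ω ω', z ω i0 = z ω' i0) (ω ω' : F.Ω) :
    F.ctz w q l i0 z ω = F.ctz w q l i0 z ω' ↔ F.qlb w q l i0 z ω = F.qlb w q l i0 z ω' := by
  constructor
  · intro h
    obtain ⟨a1, a2, a3, a4, a5⟩ := Box.mlb_ext (show F.mlb w (fun i => qcv q l i0 i + w)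
      (qcv q l i0) (fun ω => zfr i0 (z ω)) ω = F.mlb w (fun i => qcv q l i0 i + w)
      (qcv q l i0) (fun ω => zfr i0 (z ω)) ω' from h)
    have hz : z ω = z ω' := by
      funext i
      by_cases hi : i = i0
      · rw [hi]
        exact hz0 ω ω'
      · exact zfr_eq a2 hi
    have e1 : ∀ o : F.Ω, F.mps w (fun i => qcv q l i0 i + w)
        (fun ω => zfr i0 (z ω)) o = F.gps w (q + w) l i0 z o := by
      intro o
      funext i
      have h1 := flk_zfr (q + w) l i0 (z o) (F.x1 w o) i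
      have h2 : (fun i : Fin m => if i = i0 then q + w else q + w + l) =
          fun i => qcv q l i0 i + w := by
        funext i
        unfold qcv
        split_ifs
        · rfl
        · ring
      rw [h2] at h1
      exact h1
    have e2 : ∀ o : F.Ω, F.mvl (qcv q l i0) (fun ω => zfr i0 (z ω)) o =
        F.gvl q l i0 z o := fun o => funext fun i => flk_zfr q l i0 (z o) (F.d o) i
    rw [e1, e1] at a3
    rw [e2, e2] at a4
    show (((F.T1 w ω, z ω), (F.gps w (q + w) l i0 z ω, F.gvl q l i0 z ω)), F.Z ω) =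
      (((F.T1 w ω', z ω'), (F.gps w (q + w) l i0 z ω', F.gvl q l i0 z ω')), F.Z ω')
    rw [a1, hz, a3, a4, a5]
  · intro h
    exact (blb_qlb F w q l i0 z).2 ω ω' h

end nest

/-! ### The information of closed contexts -/

/-- **Data processing** for the information about `L`. -/
theorem inf_le {Ω A B L Z : Type} [Fintype Ω] {p : Ω → ℝ} (hp : ∀ ω, 0 ≤ p ω) (b' : Ω → A)
    (b : Ω → B) (lz : Ω → L) (Zv : Ω → Z) (hZ : Det p lz Zv) :
    CH p b' Zv - CH p b' lz ≤ CH p b Zv - CH p b lz + CH p b' (fun ω => (b ω, Zv ω)) := by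
  have e1 := CH_chain hp b' b Zv
  have e2 := CH_chain hp b b' Zv
  have e3 : CH p (fun ω => (b' ω, b ω)) Zv = CH p (fun ω => (b ω, b' ω)) Zv := by
    refine CH_congr hp ?_ ?_ (fun _ _ _ _ h => h) (fun _ _ _ _ h => h) <;>
    · intro ω ω' _ _ h
      simp only [Prod.mk.injEq] at h ⊢
      tauto
  have e4 := CH_le_add hp b b' lz
  have e5 : CH p b (fun ω => (b' ω, lz ω)) ≤ CH p b (fun ω => (b' ω, Zv ω)) := by
    refine CH_mono_cond hp ?_
    intro ω ω' hω hω' h
    exact Prod.ext (Prod.ext_iff.mp h).1 (hZ ω ω' hω hω' (Prod.ext_iff.mp h).2)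
  linarith

/-- The information of a closed context. -/
theorem nfo_closed {F : Fam m J} {p : F.Ω → ℝ} {S : Type} {w : ℕ} (hp : IsLaw p) (b : F.Ω → S)
    (hcl : Det p (slam F w) b) (hT : Det p b (F.T1 w)) :
    CH p b (fun ω => (F.l ω, F.Z ω)) = CH p (F.T1 w) (fun ω => (F.l ω, F.Z ω)) := by
  refine CH_congr hp.nonneg ?_ ?_ (fun _ _ _ _ h => h) (fun _ _ _ _ h => h)
  · intro ω ω' hω hω' h
    exact hT ω ω' hω hω' (Prod.ext_iff.mp h).1
  · intro ω ω' hω hω' h
    have h1 : F.T1 w ω = F.T1 w ω' := (Prod.ext_iff.mp h).1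
    have h2 : (F.l ω, F.Z ω) = (F.l ω', F.Z ω') := (Prod.ext_iff.mp h).2
    exact hcl ω ω' hω hω' (Prod.ext (Prod.ext_iff.mp h2).1 (Prod.ext (Prod.ext_iff.mp h2).2 h1))

/-- **Monotonicity.** Two closed contexts, the first one known from the second one up to `C`. -/
theorem nfo_mono {F : Fam m J} {p : F.Ω → ℝ} {S S' : Type} {w w' : ℕ} (hp : IsLaw p)
    (b' : F.Ω → S') (b : F.Ω → S) (hcl' : Det p (slam F w') b') (hT' : Det p b' (F.T1 w'))
    (hcl : Det p (slam F w) b) (hT : Det p b (F.T1 w)) :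
    CH p b' F.Z - CH p (F.T1 w') (fun ω => (F.l ω, F.Z ω)) ≤
      CH p b F.Z - CH p (F.T1 w) (fun ω => (F.l ω, F.Z ω)) +
        CH p b' (fun ω => (b ω, F.Z ω)) := by
  have h1 := inf_le hp.nonneg b' b (fun ω => (F.l ω, F.Z ω)) F.Z
    (fun ω ω' _ _ h => (Prod.ext_iff.mp h).2)
  rw [nfo_closed hp b' hcl' hT', nfo_closed hp b hcl hT] at h1
  exact h1

end Pool.PC
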