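import Pool.Agent.H70.PC.Clo
import Pool.Agent.H85.PC.Out

/-!
# Plan C: closed slopes and pairs of times, from the output of the class side

`Clz` (real error) against `Clo` (digits); the field `th` of `Lvl`, on all events of relative
probability at least `ϖ`, as a bound for the pairs of times which see near slopes.
-/

set_option autoImplicit false

namespace Pool.PC

open Finset Real
open Pool.Agent.H49.Ent Pool.Agent.H32.Dense Pool.STK Pool.KA Pool.KSAT Pool.K2S Pool.LK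

section clz

variable {m J : ℕ} {F : Fam m J} {A A' E : F.Ω → Prop} {a : F.Ω → ℝ} {w w' r : ℕ} {e e' : ℝ}

theorem Clz.sub (h : Clz F A a w e) (hA : ∀ ω, A' ω → A ω) : Clz F A' a w e :=
  fun ω ω' h1 h2 => h ω ω' ⟨h1.1, hA ω h1.2⟩ ⟨h2.1, hA ω' h2.2⟩

theorem Clz.le (h : Clz F A a w e) (he : e ≤ e') : Clz F A a w e' :=
  fun ω ω' h1 h2 h3 => (h ω ω' h1 h2 h3).trans he

theorem Clz.window (h : Clz F A a w e) (hww : w ≤ w') (hw' : w' ≤ J) : Clz F A a w' e :=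
  fun ω ω' h1 h2 h3 => h ω ω' h1 h2 (slam_up70 hww hw' h3)

theorem Clz.clo (h : Clz F A a w e) (he : e ≤ 2 / 2 ^ r) : Clo F A a w r :=
  fun ω ω' h1 h2 h3 => (h ω ω' h1 h2 h3).trans he

theorem Clo.clz (h : Clo F A a w r) (he : 2 / 2 ^ r ≤ e) : Clz F A a w e :=
  fun ω ω' h1 h2 h3 => (h ω ω' h1 h2 h3).trans he

/-- The real error as digits. -/
theorem rpow_le_two {x : ℝ} (h : (r : ℝ) ≤ x + 1) : (2 : ℝ) ^ (-x) ≤ 2 / 2 ^ r := by
  have e : (2 : ℝ) / 2 ^ r = (2 : ℝ) ^ (1 - (r : ℝ)) := by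
    rw [Real.rpow_sub (by norm_num), Real.rpow_one, Real.rpow_natCast]
  rw [e]
  exact Real.rpow_le_rpow_of_exponent_le (by norm_num) (by linarith)

theorem two_le_rpow {x : ℝ} (h : x + 1 ≤ (r : ℝ)) : 2 / 2 ^ r ≤ (2 : ℝ) ^ (-x) := by
  have e : (2 : ℝ) / 2 ^ r = (2 : ℝ) ^ (1 - (r : ℝ)) := by
    rw [Real.rpow_sub (by norm_num), Real.rpow_one, Real.rpow_natCast]
  rw [e]
  exact Real.rpow_le_rpow_of_exponent_le (by norm_num) (by linarith)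

theorem Clz.digits {x : ℝ} (h : Clz F A a w ((2 : ℝ) ^ (-x))) (hr : (r : ℝ) ≤ x + 1) :
    Clo F A a w r := h.clo (rpow_le_two hr)

/-- Pairs of times which see near slopes give a closed part, real error. -/
theorem clz_pairs (F : Fam m J) (E : F.Ω → Prop)
    (h : IsLaw (Pool.Agent.H49.Ent.cond F.p E True)) (a : F.Ω → ℝ) (w : ℕ) (e : ℝ) :
    ∃ E' : F.Ω → Prop, (∀ ω, E' ω → E ω) ∧ Clz F E' a w (2 * e) ∧
      Pe (dbl (Pool.Agent.H49.Ent.cond F.p E True) (slam F w))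
        (fun u => |a u.1 - a u.2| ≤ e) * Pe F.p E ≤ Pe F.p E' := by
  classical
  obtain ⟨φ, -, h2⟩ := th_ev h (slam F w) a (fun x y => |x - y| ≤ e)
  refine ⟨fun ω => E ω ∧ |φ (slam F w ω) - a ω| ≤ e, fun ω hω => hω.1, ?_, ?_⟩
  · intro ω ω' h3 h4 h5
    have k1 := h3.2.2
    have k2 := h4.2.2
    rw [← h5] at k2
    rw [abs_sub_comm] at k1
    have e1 : 2 * e = e + e := by ring
    rw [e1]
    exact (abs_sub_le _ (φ (slam F w ω)) _).trans (add_le_add k1 k2)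
  · have hE0 : 0 ≤ Pe F.p E := by
      rw [Pe_eq]
      exact Finset.sum_nonneg fun ω _ => by split_ifs; exacts [F.isLaw.nonneg ω, le_rfl]
    rcases hE0.eq_or_lt with h0 | h0
    · rw [← h0, mul_zero]
      rw [Pe_eq]
      exact Finset.sum_nonneg fun ω _ => by split_ifs; exacts [F.isLaw.nonneg ω, le_rfl]
    · have h3 : Pe (Pool.Agent.H49.Ent.cond F.p E True)
          (fun ω => |φ (slam F w ω) - a ω| ≤ e) =
          Pe F.p (fun ω => E ω ∧ |φ (slam F w ω) - a ω| ≤ e) / Pe F.p E := Pe_cond _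
      rw [h3, le_div_iff₀ h0] at h2
      exact h2

/-- **(TH on events)** If no part of `A` of relative probability at least `ϖ` is closed to `2 * e`,
then on every part of relative probability at least `ϖ'` the pairs which see slopes at distance at
most `e` have probability at most `c`, where `ϖ ≤ c * ϖ'`. -/
theorem pairs_of_th (F : Fam m J) (A : F.Ω → Prop) (a : F.Ω → ℝ) (w : ℕ) {e ϖ ϖ' c : ℝ}
    (hn : ∀ E, Ev F A ϖ E → ¬ Clz F E a w (2 * e)) (hc : 0 ≤ c) (hϖ : ϖ ≤ c * ϖ')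
    (hA : 0 < Pe F.p A) (hϖ' : 0 < ϖ') {E : F.Ω → Prop} (hE : Ev F A ϖ' E) :
    Pe (dbl (Pool.Agent.H49.Ent.cond F.p E True) (slam F w))
      (fun u => |a u.1 - a u.2| ≤ e) ≤ c := by
  have hE0 : 0 < Pe F.p E := lt_of_lt_of_le (mul_pos hϖ' hA) hE.2
  have hlaw : IsLaw (Pool.Agent.H49.Ent.cond F.p E True) :=
    Pool.K2S.isLaw_cond F.isLaw hE0
  obtain ⟨E', h1, h2, h3⟩ := clz_pairs F E hlaw a w e
  by_contra hcon
  push Not at hcon
  refine hn E' ⟨fun ω hω => hE.1 ω (h1 ω hω), ?_⟩ h2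
  refine le_trans ?_ h3
  have h4 : c * Pe F.p E ≤ Pe (dbl (Pool.Agent.H49.Ent.cond F.p E True) (slam F w))
      (fun u => |a u.1 - a u.2| ≤ e) * Pe F.p E :=
    mul_le_mul_of_nonneg_right hcon.le hE0.le
  refine le_trans ?_ h4
  have h5 : c * (ϖ' * Pe F.p A) ≤ c * Pe F.p E := mul_le_mul_of_nonneg_left hE.2 hc
  have h6 : ϖ * Pe F.p A ≤ c * ϖ' * Pe F.p A := mul_le_mul_of_nonneg_right hϖ hA.le
  linarith [mul_assoc c ϖ' (Pe F.p A)]

end clz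

section lvl

variable {J M : ℕ} {δ g κ : ℝ} {F : Fam 2 J} {A : F.Ω → Prop} {S : Num M δ g κ}
  {W Q : Finset ℚ} {h ϖ : ℝ} {B : ℕ → Bx F} {N : ℕ → ℝ}

/-- **(CLO)** in digits, at all windows above a window of the mesh. -/
theorem ClsLvl.clo_nat (L : ClsLvl F A S W Q h ϖ B N) {k : ℕ} (hk : k < M) {x : ℚ} (hx : x ∈ W)
    (h0 : (0 : ℝ) ≤ x) (h1 : (x : ℝ) ≤ 1) {w r : ℕ} (hw : ⌊(x : ℝ) * J⌋₊ ≤ w) (hwJ : w ≤ J)
    (hr : (r : ℝ) ≤ (S.rot k x - h) * J + 1) : Clo F A (B k).a w r :=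
  ((L.clo k hk x hx h0 h1).window hw hwJ).digits hr

/-- **(TH)** at all windows below a window of the mesh. -/
theorem ClsLvl.th_nat (L : ClsLvl F A S W Q h ϖ B N) {k : ℕ} (hk : k < M) {x : ℚ} (hx : x ∈ W)
    (h0 : (0 : ℝ) ≤ x) (h1 : (x : ℝ) ≤ 1) (hn : S.rot k x + 2 * h ≤ S.n k - S.q k) {w : ℕ}
    (hw : w ≤ ⌊(x : ℝ) * J⌋₊) {e : ℝ} (he : e ≤ (2 : ℝ) ^ (-((S.rot k x + h) * J)))
    {E : F.Ω → Prop} (hE : Ev F A ϖ E) : ¬ Clz F E (B k).a w e := by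
  intro hc
  refine L.th k hk x hx h0 h1 hn E hE ((hc.window hw ?_).le he)
  have h3 : (x : ℝ) * J ≤ (J : ℝ) := by
    have := mul_le_mul_of_nonneg_right h1 (Nat.cast_nonneg J : (0 : ℝ) ≤ J)
    linarith
  exact (Nat.floor_le_floor h3).trans (by rw [Nat.floor_natCast])

/-- **(TH)** for the pairs of times, on all events of relative probability at least `ϖ'`, at all
windows below a window of the mesh. -/
theorem ClsLvl.pairs (L : ClsLvl F A S W Q h ϖ B N) {k : ℕ} (hk : k < M) {x : ℚ} (hx : x ∈ W)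
    (h0 : (0 : ℝ) ≤ x) (h1 : (x : ℝ) ≤ 1) (hn : S.rot k x + 2 * h ≤ S.n k - S.q k) {w r : ℕ}
    (hw : w ≤ ⌊(x : ℝ) * J⌋₊) (hr : (S.rot k x + h) * J + 1 ≤ (r : ℝ)) {ϖ' c : ℝ} (hc : 0 ≤ c)
    (hϖ : ϖ ≤ c * ϖ') (hA : 0 < Pe F.p A) (hϖ' : 0 < ϖ') {E : F.Ω → Prop} (hE : Ev F A ϖ' E) :
    Pe (dbl (Pool.Agent.H49.Ent.cond F.p E True) (slam F w))
      (fun u => |(B k).a u.1 - (B k).a u.2| ≤ 1 / 2 ^ r) ≤ c := by
  refine pairs_of_th F A (B k).a w (e := 1 / 2 ^ r) (ϖ := ϖ) (ϖ' := ϖ') ?_ hc hϖ hA hϖ' hE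
  intro E' hE'
  refine L.th_nat hk hx h0 h1 hn hw ?_ hE'
  have e : (2 : ℝ) * (1 / 2 ^ r) = 2 / 2 ^ r := by ring
  rw [e]
  exact two_le_rpow hr

/-- The same on the sure event. -/
theorem ClsLvl.pairs_sure {F : Fam 2 J} {B : ℕ → Bx F} (L : ClsLvl F (fun _ => True) S W Q h ϖ B N)
    {k : ℕ} (hk : k < M) {x : ℚ} (hx : x ∈ W)
    (h0 : (0 : ℝ) ≤ x) (h1 : (x : ℝ) ≤ 1) (hn : S.rot k x + 2 * h ≤ S.n k - S.q k) {w r : ℕ}
    (hw : w ≤ ⌊(x : ℝ) * J⌋₊) (hr : (S.rot k x + h) * J + 1 ≤ (r : ℝ)) {ϖ' c : ℝ} (hc : 0 ≤ c)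
    (hϖ : ϖ ≤ c * ϖ') (hϖ' : 0 < ϖ') {E : F.Ω → Prop} (hE : ϖ' ≤ Pe F.p E) :
    Pe (dbl (Pool.Agent.H49.Ent.cond F.p E True) (slam F w))
      (fun u => |(B k).a u.1 - (B k).a u.2| ≤ 1 / 2 ^ r) ≤ c := by
  have h1' : Pe F.p (fun _ => True) = 1 := by
    rw [Pe_eq]
    simp [F.isLaw.sum_one]
  exact L.pairs hk hx h0 h1 hn hw hr hc hϖ (by rw [h1']; exact one_pos) hϖ'
    ⟨fun _ _ => trivial, by rw [h1', mul_one]; exact hE⟩

end lvl

end Pool.PC
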