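import Pool.Agent.H93.PC.Stmts

/-!
# Plan C, row VIS: planks are visible from the exact point and a cell of the velocity
-/

set_option autoImplicit false

namespace Pool.PCD

open Finset Real
open Pool.Agent.H49.Ent Pool.Agent.H32.Dense Pool.STK Pool.KA Pool.KSAT Pool.K2S Pool.PB Pool.PC

theorem rd_close (ρ : ℕ) (s : ℝ) : |s - rd ρ s| ≤ 1 / 2 ^ ρ := by
  have h2 : (0 : ℝ) < 2 ^ ρ := by positivity
  have h3 := Int.floor_le ((2 : ℝ) ^ ρ * s)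
  have h4 := Int.lt_floor_add_one ((2 : ℝ) ^ ρ * s)
  have e : s - rd ρ s = (2 ^ ρ * s - ⌊(2 : ℝ) ^ ρ * s⌋) / 2 ^ ρ := by
    unfold rd
    field_simp
  rw [e, abs_div, abs_of_pos h2]
  refine div_le_div_of_nonneg_right ?_ h2.le
  rw [abs_le]
  constructor <;> linarith

theorem zs_ne {i₀ i : Fin 2} (hi : i ≠ i₀) (ρ : ℕ) (s : ℝ) : zs i₀ ρ s i = rd ρ s := by
  unfold zs
  rw [if_neg hi]

/-- The information is monotone up to the missing entropy. -/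
theorem IL_le {m J : ℕ} (F : Fam m J) {S S' : Type} (b' : F.Ω → S') (b : F.Ω → S) :
    IL F b' ≤ IL F b + CH F.p b' (fun ω => (b ω, F.Z ω)) :=
  inf_le F.isLaw.nonneg b' b (fun ω => (F.l ω, F.Z ω)) F.Z
    (fun _ _ _ _ h => (Prod.ext_iff.mp h).2)

theorem vis_thm : VisStmt := by
  obtain ⟨C₁, hC₁⟩ : ∃ C₁ : ℝ, C₁ = ((2 : ℕ) : ℝ) * Real.log (4 * 3 + 3) := ⟨_, rfl⟩
  obtain ⟨C₂, hC₂⟩ : ∃ C₂ : ℝ, C₂ = 2 * (((2 : ℕ) : ℝ) * Real.log
    (2 * (((2 : ℕ) : ℝ) * 3 * (2 * (((2 : ℕ) : ℝ) * 3 + 3))) + 3)) := ⟨_, rfl⟩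
  have h1 : 0 ≤ C₁ := by
    rw [hC₁]
    exact mul_nonneg (Nat.cast_nonneg _) (Real.log_nonneg (by norm_num))
  have h2 : 0 ≤ C₂ := by
    rw [hC₂]
    exact mul_nonneg (by norm_num) (mul_nonneg (Nat.cast_nonneg _)
      (Real.log_nonneg (by norm_num)))
  refine ⟨C₁ + C₂, by positivity, ?_⟩
  intro J F i₀ i₁ w q ρ r n s hi hw hs hρ hn
  have hp := F.isLaw
  have h0 := hp.nonneg
  obtain ⟨e, t, he⟩ := hs.own
  have hiu : ∀ i : Fin 2, i ≠ i₀ → i = i₁ := by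
    intro i hi'
    fin_cases i <;> fin_cases i₀ <;> fin_cases i₁ <;> simp_all
  -- the rounded slope
  have hnear : ∀ ω, 0 < F.p ω → ∀ i, i ≠ i₀ →
      |(fun (ω : F.Ω) (_ : Fin 2) => e (Fam.pt F ω)) ω i - zs i₀ ρ (s ω) i| ≤ 3 / 2 ^ ρ := by
    intro ω hω i hi'
    rw [zs_ne hi']
    have k1 := (he ω hω).2.2
    have k2 := rd_close ρ (s ω)
    have k3 : (2 : ℝ) / 2 ^ r ≤ 2 / 2 ^ ρ := pw_mono hρ (by norm_num)
    have e3 : (3 : ℝ) / 2 ^ ρ = 2 / 2 ^ ρ + 1 / 2 ^ ρ := by ring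
    rw [e3]
    exact (abs_sub_le _ (s ω) _).trans (add_le_add (k1.trans k3) k2)
  have hgr : ∀ (ω : F.Ω) i, ∃ a : ℤ, zs i₀ ρ (s ω) i = a / 2 ^ ρ := by
    intro ω i
    unfold zs
    split_ifs
    · exact ⟨0, by simp⟩
    · exact ⟨_, rfl⟩
  have k1 : CH F.p (fun ω => zfr i₀ (zs i₀ ρ (s ω))) (Fam.pt F) ≤ C₁ := by
    rw [hC₁]
    exact CH_frame (F := F) (p := F.p) (i0 := i₀) (l' := ρ) (D := 3)
      (z := fun ω _ => e (Fam.pt F ω)) (z' := fun ω => zs i₀ ρ (s ω)) hp (by norm_num) hgr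
      hnear (Fam.pt F) (fun ω ω' _ _ h i _ => by
        show e (Fam.pt F ω) = e (Fam.pt F ω')
        rw [h])
  obtain ⟨n', hn'1, hn'2⟩ : ∃ n' : ℕ, q + ρ ≤ n' ∧ (n' = n ∨ n' = q) := by
    rcases hn with h | h
    · exact ⟨q, by omega, Or.inr rfl⟩
    · exact ⟨n, h, Or.inl rfl⟩
  have k2 : CH F.p (plk F i₀ w q ρ s)
      (fun ω => ((F.D q ω, zfr i₀ (zs i₀ ρ (s ω))), Fam.pt F ω)) ≤ C₂ := by
    rw [hC₂]
    refine ctt_pt (F := F) (p := F.p) (w := w) (q := q) (q' := q) (l' := ρ) (i0 := i₀) (B := 3)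
      (D := 3) (n := n') (e := fun ω _ => e (Fam.pt F ω)) (z := fun ω => zs i₀ ρ (s ω)) hp hw
      (by norm_num) (by norm_num) le_rfl hn'1
      (fun ω hω i => ((he ω hω).1).trans (by norm_num)) hnear _ ?_
    intro ω ω' hω hω' h
    have e1 : F.D q ω = F.D q ω' := (Prod.ext_iff.mp (Prod.ext_iff.mp h).1).1
    have e2 : zfr i₀ (zs i₀ ρ (s ω)) = zfr i₀ (zs i₀ ρ (s ω')) :=
      (Prod.ext_iff.mp (Prod.ext_iff.mp h).1).2
    have e3 : Fam.pt F ω = Fam.pt F ω' := (Prod.ext_iff.mp h).2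
    have e4 : ∀ i, |F.d ω i - F.d ω' i| ≤ 1 / 2 ^ q := fun i =>
      Box.near_of_floor (congrFun e1 i : ⌊(2 : ℝ) ^ q * F.d ω i⌋ = ⌊(2 : ℝ) ^ q * F.d ω' i⌋)
    refine ⟨(Prod.ext_iff.mp e3).1, (Prod.ext_iff.mp e3).2, fun i hi' => ⟨?_, zfr_eq e2 hi'⟩,
      (e4 i₀).trans (div_le_div_of_nonneg_right (by norm_num) (by positivity)), ?_⟩
    · show e (Fam.pt F ω) = e (Fam.pt F ω')
      rw [e3]
    · intro i hi'
      show |(F.d ω i - e (Fam.pt F ω) * F.d ω i₀) - (F.d ω' i - e (Fam.pt F ω) * F.d ω' i₀)| ≤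
        3 / 2 ^ n'
      rcases hn'2 with h' | h'
      · rw [h', hiu i hi']
        have m1 := (he ω hω).2.1
        have m2 := (he ω' hω').2.1
        rw [← e3] at m2
        have e5 : (F.d ω i₁ - e (Fam.pt F ω) * F.d ω i₀) -
            (F.d ω' i₁ - e (Fam.pt F ω) * F.d ω' i₀) =
            (F.d ω i₁ - e (Fam.pt F ω) * F.d ω i₀ - t (Fam.pt F ω)) -
            (F.d ω' i₁ - e (Fam.pt F ω) * F.d ω' i₀ - t (Fam.pt F ω)) := by ring
        rw [e5]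
        refine (abs_sub _ _).trans ?_
        have e6 : (3 : ℝ) / 2 ^ n = 1 / 2 ^ n + 1 / 2 ^ n + 1 / 2 ^ n := by ring
        have e7 : (0 : ℝ) ≤ 1 / 2 ^ n := by positivity
        rw [e6]
        linarith
      · rw [h']
        have e5 : (F.d ω i - e (Fam.pt F ω) * F.d ω i₀) -
            (F.d ω' i - e (Fam.pt F ω) * F.d ω' i₀) =
            (F.d ω i - F.d ω' i) - e (Fam.pt F ω) * (F.d ω i₀ - F.d ω' i₀) := by ring
        rw [e5]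
        refine (abs_sub _ _).trans ?_
        rw [abs_mul]
        have m1 := e4 i
        have m2 := mul_le_mul (he ω hω).1 (e4 i₀) (abs_nonneg _) (by norm_num : (0 : ℝ) ≤ 2)
        have e6 : (3 : ℝ) / 2 ^ q = 1 / 2 ^ q + 2 * (1 / 2 ^ q) := by ring
        rw [e6]
        linarith
  have k3 := CH_le_add h0 (plk F i₀ w q ρ s)
    (fun ω => (F.D q ω, zfr i₀ (zs i₀ ρ (s ω)))) (Fam.pt F)
  have k4 := CH_subadd h0 (F.D q) (fun ω => zfr i₀ (zs i₀ ρ (s ω))) (Fam.pt F)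
  have k5 := IL_le F (plk F i₀ w q ρ s) (Fam.pt F)
  have k6 : CH F.p (plk F i₀ w q ρ s) (fun ω => (Fam.pt F ω, F.Z ω)) ≤
      CH F.p (plk F i₀ w q ρ s) (Fam.pt F) :=
    CH_mono_cond h0 fun _ _ _ _ h => (Prod.ext_iff.mp h).1
  linarith

end Pool.PCD
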